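import Pool.Agent.BR5.Stmts

/-! # Row ASM5 of the exceptional set of breadth three, uniform exponent -/

set_option autoImplicit false

namespace Pool.Agent.BR5

open Finset Pool.Agent.Helper64.Breadth Pool.Agent.BR4

namespace Asm54

instance decTy (s β n : ℕ) : Decidable (Ty s β n) := by
  unfold Ty
  infer_instance

instance decGood (V : Finset (ℕ × ℕ)) (b : ℕ) : Decidable (Good V b) := by
  unfold Good
  infer_instance

/-- the odd primes `q ≤ x` dividing `n + 2 b`, prime to `4 b - 1` -/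
def QQ (b n x : ℕ) : Finset ℕ :=
  (Icc 1 x).filter (fun q => q.Prime ∧ q.Coprime (4 * b - 1) ∧ q % 2 = 1 ∧ q ∣ n + 2 * b)

theorem mem_QQ {b n x q : ℕ} : q ∈ QQ b n x ↔ q ≤ x ∧ q.Prime ∧ q.Coprime (4 * b - 1) ∧ q % 2 = 1 ∧ q ∣ n + 2 * b := by
  unfold QQ
  rw [mem_filter, mem_Icc]
  constructor
  · rintro ⟨⟨-, h1⟩, h2⟩
    exact ⟨h1, h2⟩
  · rintro ⟨h1, h2⟩
    exact ⟨⟨h2.1.one_le, h1⟩, h2⟩

theorem odd_of_QQ {b n x D : ℕ} (hD : D ∣ ∏ q ∈ QQ b n x, q) : D % 2 = 1 := by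
  have h1 : Odd (∏ q ∈ QQ b n x, q) := by
    apply Finset.prod_induction _ Odd (fun a b ha hb => ha.mul hb) odd_one
    intro q hq
    exact Nat.odd_iff.2 (mem_QQ.1 hq).2.2.2.1
  exact Nat.odd_iff.1 (Odd.of_dvd_nat h1 hD)

theorem prod_dvd {n b x : ℕ} : ∏ q ∈ QQ b n x, q ∣ n + 2 * b := by
  apply Finset.prod_primes_dvd
  · intro q hq
    exact (mem_QQ.1 hq).2.1.prime
  · intro q hq
    exact (mem_QQ.1 hq).2.2.2.2

/-- the primes of the classes `U` are in `QQ` up to the prime `2` -/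
theorem card_le {b n x : ℕ} {U : Finset ℕ} (hU : U ⊆ (range (4 * b - 1)).filter (fun r => r.Coprime (4 * b - 1))) :
    ((Icc 1 x).filter (fun q => q.Prime ∧ q % (4 * b - 1) ∈ U ∧ q ∣ n + 2 * b)).card ≤
      ((QQ b n x).filter (fun q => q % (4 * b - 1) ∈ U)).card + 1 := by
  have h1 : (Icc 1 x).filter (fun q => q.Prime ∧ q % (4 * b - 1) ∈ U ∧ q ∣ n + 2 * b) ⊆
      insert 2 ((QQ b n x).filter (fun q => q % (4 * b - 1) ∈ U)) := by
    intro q hq
    rw [mem_filter, mem_Icc] at hq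
    obtain ⟨⟨h2, h3⟩, h4, h5, h6⟩ := hq
    rw [mem_insert, mem_filter, mem_QQ]
    rcases h4.eq_two_or_odd with h7 | h7
    · exact Or.inl h7
    · right
      refine ⟨⟨h3, h4, ?_, h7, h6⟩, h5⟩
      have h8 := (mem_filter.1 (hU h5)).2
      rw [Nat.coprime_iff_gcd_eq_one, ← Nat.gcd_rec, Nat.gcd_comm] at h8
      exact h8
  exact (Finset.card_le_card h1).trans (Finset.card_insert_le _ _)

theorem cls {s β M n b x : ℕ} {L : ℝ} (h2 : Blk5) (h3 : Sol) (hs : s = 1 ∨ s = 2) (hty : Ty s β n) (hn : 1 ≤ n)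
    (hb : b ∈ TT s β M) (hL : 1 ≤ L) (hLL : 512 * (16 * (M : ℝ) ^ 2 + 4 * M + 4) ≤ Real.log L)
    (hc : (c n : ℝ) < L ^ (1 / 512 : ℝ)) :
    ∃ U : Finset ℕ, U ⊆ (range (4 * b - 1)).filter (fun r => r.Coprime (4 * b - 1)) ∧
      (4 * b - 1).totient ≤ 2 * U.card ∧
      (((Icc 1 x).filter (fun q => q.Prime ∧ q % (4 * b - 1) ∈ U ∧ q ∣ n + 2 * b)).card : ℝ) < Real.log L / 128 := by
  unfold TT at hb
  rw [mem_filter, mem_Icc] at hb
  obtain ⟨⟨hb1, hb2⟩, hb3⟩ := hb
  have hM1 : (1 : ℝ) ≤ M := by exact_mod_cast hb1.trans hb2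
  have hM0 : (0 : ℝ) < 4 * M := by linarith
  set m := 4 * b - 1 with hm
  have hm1 : 1 ≤ m := by omega
  have hmM : m ≤ 4 * M := by omega
  have hφ : m.totient ≤ 4 * M := (Nat.totient_le _).trans hmM
  have hφr : ((m.totient : ℕ) : ℝ) ≤ 4 * M := by exact_mod_cast hφ
  have hsm : s.Coprime m := by
    rcases hs with rfl | rfl
    · exact Nat.coprime_one_left _
    · rw [Nat.coprime_two_left]
      exact ⟨2 * b - 1, by omega⟩
  set Y := Real.log L with hY
  have hY0 : 0 ≤ Y := Real.log_nonneg hL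
  set R := ⌊Y / (512 * (4 * M))⌋₊ with hR
  have hR1 : (R : ℝ) ≤ Y / (512 * (4 * M)) := Nat.floor_le (by positivity)
  have hR2 : m ≤ R := by
    apply Nat.le_floor
    rw [le_div_iff₀ (by positivity)]
    have h4 : (m : ℝ) ≤ 4 * M := by exact_mod_cast hmM
    calc (m : ℝ) * (512 * (4 * M)) ≤ (4 * M) * (512 * (4 * M)) := by gcongr
      _ = 512 * (16 * (M : ℝ) ^ 2) := by ring
      _ ≤ Y := by nlinarith
  have hφR : ((m.totient * R : ℕ) : ℝ) ≤ Y / 512 := by
    push_cast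
    calc (m.totient : ℝ) * R ≤ (4 * M) * (Y / (512 * (4 * M))) := by gcongr
      _ = Y / 512 := by field_simp
  rcases h2 m s R (QQ b n x) hm1 hsm (fun q hq => ⟨(mem_QQ.1 hq).2.1, (mem_QQ.1 hq).2.2.1⟩) hR2 with
    ⟨U, hU1, hU2, hU3⟩ | hbig
  · refine ⟨U, hU1, hU2, ?_⟩
    have h4 := (card_le (n := n) (x := x) hU1).trans (Nat.add_le_add_right hU3 1)
    have h5 : (((Icc 1 x).filter (fun q => q.Prime ∧ q % m ∈ U ∧ q ∣ n + 2 * b)).card : ℝ) ≤
        ((m.totient * R : ℕ) : ℝ) + 1 := by exact_mod_cast h4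
    nlinarith
  · refine ⟨(range m).filter (fun r => r.Coprime m), Subset.refl _, ?_, ?_⟩
    · have h4 : ((range m).filter (fun r => r.Coprime m)).card = m.totient := by
        rw [Nat.totient_eq_card_coprime]
        congr 1
        apply filter_congr
        intro r _
        exact Nat.coprime_comm
      omega
    · have h4 := (card_le (n := n) (x := x) (U := (range m).filter (fun r => r.Coprime m)) (Subset.refl _)).trans
        (Nat.add_le_add_right (Finset.card_filter_le _ _) 1)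
      have h5 : (((Icc 1 x).filter (fun q => q.Prime ∧ q % m ∈ (range m).filter (fun r => r.Coprime m) ∧
          q ∣ n + 2 * b)).card : ℝ) ≤ (QQ b n x).card + 1 := by exact_mod_cast h4
      have h6 : 2 ^ ((QQ b n x).card - m.totient * R - m.totient ^ 2) ≤ c n + 1 := by
        refine hbig.trans (le_trans ?_ (h3 s β n b hty hb1 (fun h8 => by
          rcases hb3 with h9 | h9
          · omega
          · exact h9) hn))
        apply Finset.card_le_card
        intro D hD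
        rw [Finset.mem_filter, Nat.mem_divisors] at hD ⊢
        exact ⟨⟨hD.1.1.trans prod_dvd, by omega⟩, odd_of_QQ hD.1.1, hD.2⟩
      set k := (QQ b n x).card - m.totient * R - m.totient ^ 2 with hk
      have h7 : (2 : ℝ) ^ k ≤ 2 * L ^ (1 / 512 : ℝ) := by
        have h8 : (2 : ℝ) ^ k ≤ c n + 1 := by exact_mod_cast h6
        have h9 : (1 : ℝ) ≤ L ^ (1 / 512 : ℝ) := Real.one_le_rpow hL (by norm_num)
        linarith
      have h8 : (k : ℝ) * Real.log 2 ≤ Real.log 2 + Y / 512 := by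
        have h9 := Real.log_le_log (by positivity) h7
        rw [Real.log_pow, Real.log_mul (by norm_num) (by positivity), Real.log_rpow (by linarith)] at h9
        linarith
      have hl2 := Real.log_two_gt_d9
      have h9 : (k : ℝ) ≤ 1 + (3 / 2) * (Y / 512) := by
        have h10 : ((k : ℝ) - 1) * Real.log 2 ≤ Y / 512 := by linarith
        by_contra hcon
        push Not at hcon
        have h11 : (3 / 2) * (Y / 512) < (k : ℝ) - 1 := by linarith
        have h12 : 0 ≤ Y / 512 := by positivity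
        nlinarith
      have h10 : (QQ b n x).card ≤ k + m.totient * R + m.totient ^ 2 := by omega
      have h11 : ((QQ b n x).card : ℝ) ≤ k + ((m.totient * R : ℕ) : ℝ) + (m.totient : ℝ) ^ 2 := by exact_mod_cast h10
      have h12 : (m.totient : ℝ) ^ 2 ≤ 16 * (M : ℝ) ^ 2 := by
        calc (m.totient : ℝ) ^ 2 ≤ (4 * M) ^ 2 := by gcongr
          _ = 16 * (M : ℝ) ^ 2 := by ring
      nlinarith

theorem typ {A s β : ℕ} (h1 : Sv5) (h2 : Blk5) (h3 : Sol) (hs : s = 1 ∨ s = 2) (hβ : β = 0 ∨ β = 1) :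
    ∃ B K : ℝ, 0 ≤ B ∧ ∀ x : ℕ, 2 ≤ x → 1 ≤ Real.log x → K ≤ Real.log (Real.log x) →
      (((Icc 1 x).filter (fun n => Ty s β n ∧ (c n : ℝ) < Real.log x ^ (1 / 512 : ℝ))).card : ℝ) ≤
        B * x / Real.log x ^ A := by
  obtain ⟨M, hM⟩ := h1 A s β hs hβ
  have hB : ∀ V : Finset (ℕ × ℕ), ∃ B : ℝ, (∀ b ∈ TT s β M, Good V b) → ∀ x : ℕ, 2 ≤ x →
      (((Finset.Icc 1 x).filter (fun n => ∀ b ∈ TT s β M,
        ((HV V b n x).card : ℝ) < Real.log (Real.log x) / 128)).card : ℝ) ≤ B * x / Real.log x ^ A := by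
    intro V
    by_cases hV : ∀ b ∈ TT s β M, Good V b
    · obtain ⟨B, hB⟩ := hM V hV
      exact ⟨B, fun _ => hB⟩
    · exact ⟨0, fun h => absurd h hV⟩
  choose B hB using hB
  set W := ((TT s β M) ×ˢ (range (4 * M))).powerset with hW
  refine ⟨∑ V ∈ W, |B V|, 512 * (16 * (M : ℝ) ^ 2 + 4 * M + 4), sum_nonneg fun V _ => abs_nonneg _, ?_⟩
  intro x hx hL hLL
  have hLA : 0 < Real.log x ^ A := by positivity
  have hsub : (Icc 1 x).filter (fun n => Ty s β n ∧ (c n : ℝ) < Real.log x ^ (1 / 512 : ℝ)) ⊆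
      (W.filter (fun V => ∀ b ∈ TT s β M, Good V b)).biUnion (fun V => (Icc 1 x).filter (fun n => ∀ b ∈ TT s β M,
        ((HV V b n x).card : ℝ) < Real.log (Real.log x) / 128)) := by
    intro n hn
    rw [mem_filter, mem_Icc] at hn
    obtain ⟨⟨hn1, hn2⟩, hty, hc⟩ := hn
    have hcls : ∀ b : ℕ, ∃ U : Finset ℕ, b ∈ TT s β M →
        U ⊆ (range (4 * b - 1)).filter (fun r => r.Coprime (4 * b - 1)) ∧ (4 * b - 1).totient ≤ 2 * U.card ∧
        (((Icc 1 x).filter (fun q => q.Prime ∧ q % (4 * b - 1) ∈ U ∧ q ∣ n + 2 * b)).card : ℝ) <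
          Real.log (Real.log x) / 128 := by
      intro b
      by_cases hb : b ∈ TT s β M
      · obtain ⟨U, hU⟩ := cls (x := x) h2 h3 hs hty hn1 hb hL hLL hc
        exact ⟨U, fun _ => hU⟩
      · exact ⟨∅, fun h => absurd h hb⟩
    choose U hU using hcls
    set V : Finset (ℕ × ℕ) := ((TT s β M) ×ˢ (range (4 * M))).filter (fun p => p.2 ∈ U p.1) with hV
    rw [mem_biUnion]
    refine ⟨V, ?_, ?_⟩
    · rw [mem_filter, hW, mem_powerset]
      refine ⟨filter_subset _ _, ?_⟩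
      intro b hb
      obtain ⟨hU1, hU2, -⟩ := hU b hb
      unfold Good
      refine hU2.trans (Nat.mul_le_mul_left 2 (card_le_card ?_))
      intro r hr
      have h4 := mem_filter.1 (hU1 hr)
      rw [mem_filter]
      refine ⟨h4.1, h4.2, ?_⟩
      rw [hV, mem_filter, mem_product, mem_range]
      have h5 := mem_range.1 h4.1
      have h6 := hb
      unfold TT at h6
      have h7 := mem_Icc.1 (mem_filter.1 h6).1
      exact ⟨⟨hb, by simp only; omega⟩, hr⟩
    · rw [mem_filter, mem_Icc]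
      refine ⟨⟨hn1, hn2⟩, ?_⟩
      intro b hb
      obtain ⟨-, -, hU3⟩ := hU b hb
      refine lt_of_le_of_lt ?_ hU3
      have h4 : HV V b n x ⊆ (Icc 1 x).filter (fun q => q.Prime ∧ q % (4 * b - 1) ∈ U b ∧ q ∣ n + 2 * b) := by
        intro q hq
        unfold HV at hq
        rw [mem_filter] at hq ⊢
        obtain ⟨q1, q2, q3, q4⟩ := hq
        rw [hV, mem_filter] at q3
        exact ⟨q1, q2, q3.2, q4⟩
      exact_mod_cast card_le_card h4
  have hx0 : (0 : ℝ) ≤ x := Nat.cast_nonneg _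
  calc (((Icc 1 x).filter (fun n => Ty s β n ∧ (c n : ℝ) < Real.log x ^ (1 / 512 : ℝ))).card : ℝ)
      ≤ (((W.filter (fun V => ∀ b ∈ TT s β M, Good V b)).biUnion (fun V => (Icc 1 x).filter (fun n =>
        ∀ b ∈ TT s β M, ((HV V b n x).card : ℝ) < Real.log (Real.log x) / 128))).card : ℝ) := by
        exact_mod_cast card_le_card hsub
    _ ≤ ∑ V ∈ W.filter (fun V => ∀ b ∈ TT s β M, Good V b), (((Icc 1 x).filter (fun n =>
        ∀ b ∈ TT s β M, ((HV V b n x).card : ℝ) < Real.log (Real.log x) / 128)).card : ℝ) := by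
        exact_mod_cast card_biUnion_le
    _ ≤ ∑ V ∈ W.filter (fun V => ∀ b ∈ TT s β M, Good V b), |B V| * x / Real.log x ^ A := by
        apply sum_le_sum
        intro V hV
        refine (hB V (mem_filter.1 hV).2 x hx).trans ?_
        have := le_abs_self (B V)
        gcongr
    _ ≤ ∑ V ∈ W, |B V| * x / Real.log x ^ A := by
        apply sum_le_sum_of_subset_of_nonneg (filter_subset _ _)
        intro V _ _
        positivity
    _ = (∑ V ∈ W, |B V|) * x / Real.log x ^ A := by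
        rw [sum_mul, sum_div]

end Asm54

/-- the main theorem with the explicit exponent `1/512` -/
def MainX : Prop := ∀ A : ℕ, ∃ B : ℝ, ∀ x : ℕ, 2 ≤ x →
  (((Finset.Icc 1 x).filter (fun n => (c n : ℝ) < Real.log x ^ (1 / 512 : ℝ))).card : ℝ) ≤ B * x / Real.log x ^ A

open Asm54 in
theorem asmX54 (h1 : Sv5) (h2 : Blk5) (h3 : Sol) : MainX := by
  intro A
  obtain ⟨B1, K1, hB1, H1⟩ := typ (A := A) (s := 1) (β := 0) h1 h2 h3 (Or.inl rfl) (Or.inl rfl)
  obtain ⟨B2, K2, hB2, H2⟩ := typ (A := A) (s := 2) (β := 1) h1 h2 h3 (Or.inr rfl) (Or.inr rfl)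
  obtain ⟨B3, K3, hB3, H3⟩ := typ (A := A) (s := 2) (β := 0) h1 h2 h3 (Or.inr rfl) (Or.inl rfl)
  set K := max K1 (max K2 (max K3 0)) with hK
  have hK1 : K1 ≤ K := le_max_left _ _
  have hK2 : K2 ≤ K := (le_max_left _ _).trans (le_max_right _ _)
  have hK3 : K3 ≤ K := ((le_max_left _ _).trans (le_max_right _ _)).trans (le_max_right _ _)
  have hK0 : 0 ≤ K := ((le_max_right _ _).trans (le_max_right _ _)).trans (le_max_right _ _)
  set R := Real.exp K with hR
  have hR1 : 1 ≤ R := Real.one_le_exp hK0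
  refine ⟨B1 + B2 + B3 + R ^ A, fun x hx => ?_⟩
  have hx0 : (0 : ℝ) < x := by exact_mod_cast (show 0 < x by omega)
  have hL : 0 < Real.log x := Real.log_pos (by exact_mod_cast (show 1 < x by omega))
  have hLA : 0 < Real.log x ^ A := by positivity
  rcases le_or_gt R (Real.log x) with hRx | hRx
  · have hL1 : 1 ≤ Real.log x := hR1.trans hRx
    have hLL : K ≤ Real.log (Real.log x) := by
      rw [Real.le_log_iff_exp_le hL]
      exact hRx
    have hsub : (Icc 1 x).filter (fun n => (c n : ℝ) < Real.log x ^ (1 / 512 : ℝ)) ⊆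
        ((Icc 1 x).filter (fun n => Ty 1 0 n ∧ (c n : ℝ) < Real.log x ^ (1 / 512 : ℝ)) ∪
        (Icc 1 x).filter (fun n => Ty 2 1 n ∧ (c n : ℝ) < Real.log x ^ (1 / 512 : ℝ))) ∪
        (Icc 1 x).filter (fun n => Ty 2 0 n ∧ (c n : ℝ) < Real.log x ^ (1 / 512 : ℝ)) := by
      intro n hn
      rw [Finset.mem_filter] at hn
      obtain ⟨hn1, hn2⟩ := hn
      rw [Finset.mem_union, Finset.mem_union, Finset.mem_filter, Finset.mem_filter, Finset.mem_filter]
      have h4 : n % 4 = 0 ∨ n % 4 = 2 ∨ n % 2 = 1 := by omega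
      rcases h4 with h4 | h4 | h4
      · exact Or.inl (Or.inr ⟨hn1, Or.inr (Or.inl ⟨rfl, rfl, h4⟩), hn2⟩)
      · exact Or.inr ⟨hn1, Or.inr (Or.inr ⟨rfl, rfl, h4⟩), hn2⟩
      · exact Or.inl (Or.inl ⟨hn1, Or.inl ⟨rfl, h4⟩, hn2⟩)
    have hcard := (Finset.card_le_card hsub).trans ((Finset.card_union_le _ _).trans
      (Nat.add_le_add_right (Finset.card_union_le _ _) _))
    have hcard' : (((Icc 1 x).filter (fun n => (c n : ℝ) < Real.log x ^ (1 / 512 : ℝ))).card : ℝ) ≤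
        (((Icc 1 x).filter (fun n => Ty 1 0 n ∧ (c n : ℝ) < Real.log x ^ (1 / 512 : ℝ))).card : ℝ) +
        (((Icc 1 x).filter (fun n => Ty 2 1 n ∧ (c n : ℝ) < Real.log x ^ (1 / 512 : ℝ))).card : ℝ) +
        (((Icc 1 x).filter (fun n => Ty 2 0 n ∧ (c n : ℝ) < Real.log x ^ (1 / 512 : ℝ))).card : ℝ) := by
      exact_mod_cast hcard
    have k1 := H1 x hx hL1 (hK1.trans hLL)
    have k2 := H2 x hx hL1 (hK2.trans hLL)
    have k3 := H3 x hx hL1 (hK3.trans hLL)
    have k4 : 0 ≤ R ^ A * x / Real.log x ^ A := by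
      have : 0 ≤ R := by linarith
      positivity
    have k5 : (B1 + B2 + B3 + R ^ A) * x / Real.log x ^ A = B1 * x / Real.log x ^ A +
        B2 * x / Real.log x ^ A + B3 * x / Real.log x ^ A + R ^ A * x / Real.log x ^ A := by ring
    rw [k5]
    linarith
  · have hcard : ((Icc 1 x).filter (fun n => (c n : ℝ) < Real.log x ^ (1 / 512 : ℝ))).card ≤ x := by
      refine (Finset.card_filter_le _ _).trans ?_
      rw [Nat.card_Icc]
      omega
    have hcard' : (((Icc 1 x).filter (fun n => (c n : ℝ) < Real.log x ^ (1 / 512 : ℝ))).card : ℝ) ≤ x := by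
      exact_mod_cast hcard
    refine hcard'.trans ?_
    rw [le_div_iff₀ hLA]
    have h5 : Real.log x ^ A ≤ R ^ A := pow_le_pow_left₀ hL.le hRx.le A
    have h6 : R ^ A ≤ B1 + B2 + B3 + R ^ A := by linarith
    calc (x : ℝ) * Real.log x ^ A ≤ x * (B1 + B2 + B3 + R ^ A) := by
          apply mul_le_mul_of_nonneg_left (h5.trans h6) hx0.le
      _ = (B1 + B2 + B3 + R ^ A) * x := by ring

theorem asm54 : Asm5 := fun h1 h2 h3 => ⟨1 / 512, by norm_num, asmX54 h1 h2 h3⟩

end Pool.Agent.BR5
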