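import Pool.Agent.BR5.Stmts

/-!
# MP_5de915_nt: assembly of the exceptional set with a uniform exponent
-/

set_option autoImplicit false

namespace Pool.Agent.BR5.Asm575

open Finset Pool.Agent.Helper64.Breadth Pool.Agent.BR4

/-- the odd primes `q ≤ x` that divide `n + 2 b` and are prime to `4 b - 1` -/
def Qb (b n x : ℕ) : Finset ℕ :=
  (Icc 1 x).filter (fun q => q.Prime ∧ q % 2 = 1 ∧ q.Coprime (4 * b - 1) ∧ q ∣ n + 2 * b)

theorem odd_of {b n x D : ℕ} (hD : D ∣ ∏ q ∈ Qb b n x, q) : D % 2 = 1 := by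
  have h1 : Odd (∏ q ∈ Qb b n x, q) := by
    apply Finset.prod_induction _ Odd (fun a b ha hb => ha.mul hb) odd_one
    intro q hq
    unfold Qb at hq
    exact Nat.odd_iff.2 (Finset.mem_filter.1 hq).2.2.1
  exact Nat.odd_iff.1 (Odd.of_dvd_nat h1 hD)

theorem prod_dvd {b n x : ℕ} : ∏ q ∈ Qb b n x, q ∣ n + 2 * b := by
  apply Finset.prod_primes_dvd
  · intro q hq
    unfold Qb at hq
    exact (Finset.mem_filter.1 hq).2.1.prime
  · intro q hq
    unfold Qb at hq
    exact (Finset.mem_filter.1 hq).2.2.2.2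

theorem caseb (h2 : Blk5) (h3 : Sol) {s β M b n x : ℕ} (hs : s = 1 ∨ s = 2) (hty : Ty s β n) (hn : 1 ≤ n)
    (hb : b ∈ TT s β M) (hL1 : 1 ≤ Real.log x) (hT : 16000 * ((M : ℝ) ^ 2 + 1) ≤ Real.log (Real.log x))
    (hc : (c n : ℝ) < Real.log x ^ (1 / 512 : ℝ)) :
    ∃ U : Finset ℕ, U ⊆ (range (4 * b - 1)).filter (fun r => r.Coprime (4 * b - 1)) ∧
      (4 * b - 1).totient ≤ 2 * U.card ∧
      (((Qb b n x).filter (fun q => q % (4 * b - 1) ∈ U)).card : ℝ) + 1 < Real.log (Real.log x) / 128 := by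
  unfold TT at hb
  rw [Finset.mem_filter, Finset.mem_Icc] at hb
  obtain ⟨⟨hb1, hb2⟩, hb3⟩ := hb
  have hM1 : 1 ≤ M := hb1.trans hb2
  have hMr : (1 : ℝ) ≤ M := by exact_mod_cast hM1
  set LL := Real.log (Real.log x) with hLL
  have hM2 : (0 : ℝ) ≤ (M : ℝ) ^ 2 := sq_nonneg _
  have hLL0 : 0 < LL := by linarith
  set m := 4 * b - 1 with hm
  have hm1 : 1 ≤ m := by omega
  have hm4 : m ≤ 4 * M := by omega
  set R := ⌊LL / (2048 * M)⌋₊ with hR
  have hR1 : (R : ℝ) ≤ LL / (2048 * M) := Nat.floor_le (by positivity)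
  have hmR : m ≤ R := by
    refine hm4.trans (Nat.le_floor ?_)
    push_cast
    rw [le_div_iff₀ (by positivity)]
    nlinarith
  have hφ : m.totient ≤ 4 * M := (Nat.totient_le m).trans hm4
  have hφr : (m.totient : ℝ) ≤ 4 * M := by exact_mod_cast hφ
  have hφR : ((m.totient * R : ℕ) : ℝ) ≤ LL / 512 := by
    push_cast
    calc (m.totient : ℝ) * R ≤ (4 * M) * (LL / (2048 * M)) := by
          gcongr
      _ = LL / 512 := by
          field_simp
          norm_num
  have hcop : s.Coprime m := by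
    rcases hs with rfl | rfl
    · exact Nat.coprime_one_left m
    · rw [Nat.Prime.coprime_iff_not_dvd Nat.prime_two]
      omega
  rcases h2 m s R (Qb b n x) hm1 hcop (fun q hq => by
      unfold Qb at hq
      exact ⟨(Finset.mem_filter.1 hq).2.1, (Finset.mem_filter.1 hq).2.2.2.1⟩) hmR with ⟨U, hU1, hU2, hU3⟩ | h
  · refine ⟨U, hU1, hU2, ?_⟩
    have h4 : (((Qb b n x).filter (fun q => q % m ∈ U)).card : ℝ) ≤ LL / 512 :=
      le_trans (by exact_mod_cast hU3) hφR
    linarith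
  · refine ⟨(range m).filter (fun r => r.Coprime m), Finset.Subset.refl _, ?_, ?_⟩
    · have h4 : m.totient = ((range m).filter (fun r => r.Coprime m)).card := by
        rw [Nat.totient_eq_card_coprime]
        congr 1
        apply Finset.filter_congr
        intro r _
        exact Nat.coprime_comm
      omega
    · set k := (Qb b n x).card - m.totient * R - m.totient ^ 2 with hk
      have h5 : 2 ^ k ≤ c n + 1 := by
        refine h.trans (le_trans ?_ (h3 s β n b hty hb1 (fun h8 => by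
          rcases hb3 with h9 | h9
          · omega
          · exact h9) hn))
        apply Finset.card_le_card
        intro D hD
        rw [Finset.mem_filter, Nat.mem_divisors] at hD ⊢
        exact ⟨⟨hD.1.1.trans prod_dvd, by omega⟩, odd_of hD.1.1, hD.2⟩
      have h5' : (2 : ℝ) ^ k ≤ c n + 1 := by exact_mod_cast h5
      have hL0 : 0 < Real.log x := by linarith
      have h6 : (1 : ℝ) ≤ Real.log x ^ (1 / 512 : ℝ) := Real.one_le_rpow hL1 (by norm_num)
      have h7 : (2 : ℝ) ^ k ≤ 2 * Real.log x ^ (1 / 512 : ℝ) := by linarith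
      have h8 := Real.log_le_log (by positivity) h7
      rw [Real.log_pow, Real.log_mul (by norm_num) (by positivity), Real.log_rpow hL0, ← hLL] at h8
      have h9 := Real.log_two_gt_d9
      have h10 : (k : ℝ) ≤ 1 + LL / 350 := by
        by_contra hcon
        push Not at hcon
        have h11 : LL / 350 * Real.log 2 ≤ ((k : ℝ) - 1) * Real.log 2 := by
          apply mul_le_mul_of_nonneg_right _ (by linarith)
          linarith
        have h12 : LL / 350 * 0.6931471803 < LL / 350 * Real.log 2 :=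
          mul_lt_mul_of_pos_left h9 (by positivity)
        nlinarith
      have h11 : (Qb b n x).card ≤ k + m.totient * R + m.totient ^ 2 := by omega
      have h12 : ((Qb b n x).card : ℝ) ≤ k + ((m.totient * R : ℕ) : ℝ) + (m.totient : ℝ) ^ 2 := by
        exact_mod_cast h11
      have h13 : (m.totient : ℝ) ^ 2 ≤ 16 * (M : ℝ) ^ 2 := by
        have : (0 : ℝ) ≤ m.totient := Nat.cast_nonneg _
        nlinarith
      have h14 : (((Qb b n x).filter (fun q => q % m ∈ (range m).filter (fun r => r.Coprime m))).card : ℝ) ≤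
          (Qb b n x).card := by
        exact_mod_cast Finset.card_filter_le _ _
      linarith

theorem exV (h2 : Blk5) (h3 : Sol) {s β M n x : ℕ} (hs : s = 1 ∨ s = 2) (hty : Ty s β n) (hn : 1 ≤ n)
    (hL1 : 1 ≤ Real.log x) (hT : 16000 * ((M : ℝ) ^ 2 + 1) ≤ Real.log (Real.log x))
    (hc : (c n : ℝ) < Real.log x ^ (1 / 512 : ℝ)) :
    ∃ V ∈ (TT s β M ×ˢ range (4 * M)).powerset, (∀ b ∈ TT s β M, Good V b) ∧
      ∀ b ∈ TT s β M, ((HV V b n x).card : ℝ) < Real.log (Real.log x) / 128 := by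
  classical
  choose! U hU1 hU2 hU3 using fun (b : ℕ) (hb : b ∈ TT s β M) => caseb h2 h3 hs hty hn hb hL1 hT hc
  refine ⟨(TT s β M ×ˢ range (4 * M)).filter (fun p => p.2 ∈ U p.1),
    Finset.mem_powerset.2 (Finset.filter_subset _ _), ?_, ?_⟩
  · intro b hb
    have hbM : 1 ≤ b ∧ b ≤ M := by
      unfold TT at hb
      rw [Finset.mem_filter, Finset.mem_Icc] at hb
      exact hb.1
    unfold Good
    refine (hU2 b hb).trans (Nat.mul_le_mul_left 2 (Finset.card_le_card ?_))
    intro r hr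
    have h4 := hU1 b hb hr
    rw [Finset.mem_filter, Finset.mem_range] at h4
    rw [Finset.mem_filter, Finset.mem_range]
    refine ⟨h4.1, h4.2, ?_⟩
    rw [Finset.mem_filter, Finset.mem_product, Finset.mem_range]
    exact ⟨⟨hb, by omega⟩, hr⟩
  · intro b hb
    have h4 : HV ((TT s β M ×ˢ range (4 * M)).filter (fun p => p.2 ∈ U p.1)) b n x ⊆
        insert 2 ((Qb b n x).filter (fun q => q % (4 * b - 1) ∈ U b)) := by
      intro q hq
      unfold HV at hq
      rw [Finset.mem_filter, Finset.mem_filter] at hq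
      obtain ⟨hq1, hq2, ⟨_, hq3⟩, hq4⟩ := hq
      rw [Finset.mem_insert]
      rcases hq2.eq_two_or_odd with h5 | h5
      · exact Or.inl h5
      · right
        have h6 := hU1 b hb hq3
        rw [Finset.mem_filter] at h6
        have h7 : q.Coprime (4 * b - 1) := by
          have := h6.2
          unfold Nat.Coprime at this ⊢
          rw [Nat.gcd_comm, Nat.gcd_rec]
          exact this
        rw [Finset.mem_filter]
        unfold Qb
        rw [Finset.mem_filter]
        exact ⟨⟨hq1, hq2, h5, h7, hq4⟩, hq3⟩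
    have h5 := (Finset.card_le_card h4).trans (Finset.card_insert_le _ _)
    have h6 : ((HV ((TT s β M ×ˢ range (4 * M)).filter (fun p => p.2 ∈ U p.1)) b n x).card : ℝ) ≤
        (((Qb b n x).filter (fun q => q % (4 * b - 1) ∈ U b)).card : ℝ) + 1 := by exact_mod_cast h5
    exact lt_of_le_of_lt h6 (hU3 b hb)

open scoped Classical in
theorem typ (h1 : Sv5) (h2 : Blk5) (h3 : Sol) (A s β : ℕ) (hs : s = 1 ∨ s = 2) (hβ : β = 0 ∨ β = 1) :
    ∃ B : ℝ, 0 ≤ B ∧ ∀ x : ℕ, 2 ≤ x →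
      (((Icc 1 x).filter (fun n => Ty s β n ∧ (c n : ℝ) < Real.log x ^ (1 / 512 : ℝ))).card : ℝ) ≤
        B * x / Real.log x ^ A := by
  classical
  obtain ⟨M, hM⟩ := h1 A s β hs hβ
  choose! B hB using hM
  set 𝒱 : Finset (Finset (ℕ × ℕ)) :=
    ((TT s β M ×ˢ range (4 * M)).powerset).filter (fun V => ∀ b ∈ TT s β M, Good V b) with h𝒱
  set R : ℝ := Real.exp (16000 * ((M : ℝ) ^ 2 + 1)) with hR
  have hR1 : 1 ≤ R := Real.one_le_exp (by positivity)
  refine ⟨∑ V ∈ 𝒱, |B V| + R ^ A, by positivity, fun x hx => ?_⟩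
  have hx0 : (0 : ℝ) < x := by exact_mod_cast (show 0 < x by omega)
  have hL : 0 < Real.log x := Real.log_pos (by exact_mod_cast (show 1 < x by omega))
  have hLA : 0 < Real.log x ^ A := by positivity
  have hS0 : 0 ≤ ∑ V ∈ 𝒱, |B V| := Finset.sum_nonneg (fun V _ => abs_nonneg _)
  rcases le_or_gt R (Real.log x) with hRx | hRx
  · have hL1 : 1 ≤ Real.log x := hR1.trans hRx
    have hT : 16000 * ((M : ℝ) ^ 2 + 1) ≤ Real.log (Real.log x) := by
      rw [Real.le_log_iff_exp_le hL]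
      exact hRx
    have hsub : (Icc 1 x).filter (fun n => Ty s β n ∧ (c n : ℝ) < Real.log x ^ (1 / 512 : ℝ)) ⊆
        𝒱.biUnion (fun V => (Icc 1 x).filter (fun n => ∀ b ∈ TT s β M,
          ((HV V b n x).card : ℝ) < Real.log (Real.log x) / 128)) := by
      intro n hn
      rw [Finset.mem_filter] at hn
      obtain ⟨V, hV1, hV2, hV3⟩ := exV h2 h3 hs hn.2.1 (Finset.mem_Icc.1 hn.1).1 hL1 hT hn.2.2
      rw [Finset.mem_biUnion]
      exact ⟨V, by rw [h𝒱, Finset.mem_filter]; exact ⟨hV1, hV2⟩, by rw [Finset.mem_filter]; exact ⟨hn.1, hV3⟩⟩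
    have h4 := (Finset.card_le_card hsub).trans Finset.card_biUnion_le
    have h5 : (((Icc 1 x).filter (fun n => Ty s β n ∧ (c n : ℝ) < Real.log x ^ (1 / 512 : ℝ))).card : ℝ) ≤
        ∑ V ∈ 𝒱, (((Icc 1 x).filter (fun n => ∀ b ∈ TT s β M,
          ((HV V b n x).card : ℝ) < Real.log (Real.log x) / 128)).card : ℝ) := by exact_mod_cast h4
    refine h5.trans ?_
    have h6 : ∑ V ∈ 𝒱, (((Icc 1 x).filter (fun n => ∀ b ∈ TT s β M,
          ((HV V b n x).card : ℝ) < Real.log (Real.log x) / 128)).card : ℝ) ≤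
        ∑ V ∈ 𝒱, |B V| * (x / Real.log x ^ A) := by
      apply Finset.sum_le_sum
      intro V hV
      rw [h𝒱, Finset.mem_filter] at hV
      refine (hB V hV.2 x hx).trans ?_
      rw [mul_div_assoc]
      exact mul_le_mul_of_nonneg_right (le_abs_self _) (by positivity)
    refine h6.trans ?_
    rw [← Finset.sum_mul, mul_div_assoc]
    apply mul_le_mul_of_nonneg_right _ (by positivity)
    have : 0 ≤ R ^ A := by positivity
    linarith
  · have hcard : ((Icc 1 x).filter (fun n => Ty s β n ∧ (c n : ℝ) < Real.log x ^ (1 / 512 : ℝ))).card ≤ x := by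
      refine (Finset.card_filter_le _ _).trans ?_
      rw [Nat.card_Icc]
      omega
    have hcard' : (((Icc 1 x).filter (fun n => Ty s β n ∧ (c n : ℝ) < Real.log x ^ (1 / 512 : ℝ))).card : ℝ) ≤ x := by
      exact_mod_cast hcard
    refine hcard'.trans ?_
    rw [le_div_iff₀ hLA]
    have h5 : Real.log x ^ A ≤ R ^ A := pow_le_pow_left₀ hL.le hRx.le A
    calc (x : ℝ) * Real.log x ^ A ≤ x * (∑ V ∈ 𝒱, |B V| + R ^ A) := by
          apply mul_le_mul_of_nonneg_left _ hx0.le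
          linarith
      _ = (∑ V ∈ 𝒱, |B V| + R ^ A) * x := by ring

theorem asm575 : Asm5 := by
  intro h1 h2 h3
  refine ⟨1 / 512, by norm_num, fun A => ?_⟩
  obtain ⟨B1, hB1, G1⟩ := typ h1 h2 h3 A 1 0 (Or.inl rfl) (Or.inl rfl)
  obtain ⟨B2, hB2, G2⟩ := typ h1 h2 h3 A 2 1 (Or.inr rfl) (Or.inr rfl)
  obtain ⟨B3, hB3, G3⟩ := typ h1 h2 h3 A 2 0 (Or.inr rfl) (Or.inl rfl)
  refine ⟨B1 + B2 + B3, fun x hx => ?_⟩
  classical
  have hsub : (Icc 1 x).filter (fun n => (c n : ℝ) < Real.log x ^ (1 / 512 : ℝ)) ⊆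
      ((Icc 1 x).filter (fun n => Ty 1 0 n ∧ (c n : ℝ) < Real.log x ^ (1 / 512 : ℝ)) ∪
      (Icc 1 x).filter (fun n => Ty 2 1 n ∧ (c n : ℝ) < Real.log x ^ (1 / 512 : ℝ))) ∪
      (Icc 1 x).filter (fun n => Ty 2 0 n ∧ (c n : ℝ) < Real.log x ^ (1 / 512 : ℝ)) := by
    intro n hn
    rw [Finset.mem_filter] at hn
    obtain ⟨hn1, hn2⟩ := hn
    rw [Finset.mem_union, Finset.mem_union, Finset.mem_filter, Finset.mem_filter, Finset.mem_filter]
    have h4 : n % 4 = 0 ∨ n % 4 = 2 ∨ n % 2 = 1 := by omega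
    rcases h4 with h4 | h4 | h4
    · exact Or.inl (Or.inr ⟨hn1, Or.inr (Or.inl ⟨rfl, rfl, h4⟩), hn2⟩)
    · exact Or.inr ⟨hn1, Or.inr (Or.inr ⟨rfl, rfl, h4⟩), hn2⟩
    · exact Or.inl (Or.inl ⟨hn1, Or.inl ⟨rfl, h4⟩, hn2⟩)
  have hcard := (Finset.card_le_card hsub).trans ((Finset.card_union_le _ _).trans
    (Nat.add_le_add_right (Finset.card_union_le _ _) _))
  have hcard' : (((Icc 1 x).filter (fun n => (c n : ℝ) < Real.log x ^ (1 / 512 : ℝ))).card : ℝ) ≤
      (((Icc 1 x).filter (fun n => Ty 1 0 n ∧ (c n : ℝ) < Real.log x ^ (1 / 512 : ℝ))).card : ℝ) +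
      (((Icc 1 x).filter (fun n => Ty 2 1 n ∧ (c n : ℝ) < Real.log x ^ (1 / 512 : ℝ))).card : ℝ) +
      (((Icc 1 x).filter (fun n => Ty 2 0 n ∧ (c n : ℝ) < Real.log x ^ (1 / 512 : ℝ))).card : ℝ) := by
    exact_mod_cast hcard
  have k1 := G1 x hx
  have k2 := G2 x hx
  have k3 := G3 x hx
  have k5 : (B1 + B2 + B3) * x / Real.log x ^ A = B1 * x / Real.log x ^ A +
      B2 * x / Real.log x ^ A + B3 * x / Real.log x ^ A := by ring
  rw [k5]
  linarith

end Pool.Agent.BR5.Asm575
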