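import Pool.Agent.BR5.Stmts

/-!
# Row ASM5: assembly for the uniform exponent
-/

set_option autoImplicit false

namespace Pool.Agent.BR5.Asm77

open Finset Pool.Agent.Helper64.Breadth Pool.Agent.BR4

/-- the odd primes `q ≤ x` prime to `m` dividing `N` -/
def QQ (m N x : ℕ) : Finset ℕ := (Icc 1 x).filter (fun q => q.Prime ∧ q ≠ 2 ∧ q.Coprime m ∧ q ∣ N)

theorem cop_mod {q m : ℕ} (h : (q % m).Coprime m) : q.Coprime m := by
  unfold Nat.Coprime at *
  rw [Nat.gcd_comm, Nat.gcd_rec]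
  exact h

theorem odd_of {m N x D : ℕ} (hD : D ∣ ∏ q ∈ QQ m N x, q) : D % 2 = 1 := by
  have h1 : Odd (∏ q ∈ QQ m N x, q) := by
    apply Finset.prod_induction _ Odd (fun a b ha hb => ha.mul hb) odd_one
    intro q hq
    unfold QQ at hq
    rw [Finset.mem_filter] at hq
    exact hq.2.1.odd_of_ne_two hq.2.2.1
  exact Nat.odd_iff.1 (Odd.of_dvd_nat h1 hD)

theorem prod_dvd {m N x : ℕ} : ∏ q ∈ QQ m N x, q ∣ N := by
  apply Finset.prod_primes_dvd
  · intro q hq
    unfold QQ at hq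
    exact (Finset.mem_filter.1 hq).2.1.prime
  · intro q hq
    unfold QQ at hq
    exact (Finset.mem_filter.1 hq).2.2.2.2

theorem two_pow {s β n b x e : ℕ} (h3 : Sol) (hty : Ty s β n) (hb : 1 ≤ b) (hβ : s = 2 → b % 2 = β) (hn : 1 ≤ n)
    (h : 2 ^ e ≤ ((∏ q ∈ QQ (4 * b - 1) (n + 2 * b) x, q).divisors.filter (fun D => 4 * b - 1 ∣ s * D + 1)).card) :
    2 ^ e ≤ c n + 1 := by
  refine h.trans (le_trans (Finset.card_le_card ?_) (h3 s β n b hty hb hβ hn))
  intro D hD
  rw [Finset.mem_filter, Nat.mem_divisors] at hD ⊢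
  exact ⟨⟨hD.1.1.trans prod_dvd, by omega⟩, odd_of hD.1.1, hD.2⟩

theorem perb {s β n b x M : ℕ} (h2 : Blk5) (h3 : Sol) (hs : s = 1 ∨ s = 2) (hty : Ty s β n) (hb : b ∈ TT s β M)
    (hn : 1 ≤ n) (hl : 8192 * (M : ℝ) ^ 2 + 1000 ≤ Real.log (Real.log x)) (hL : 0 < Real.log x)
    (hc : (c n : ℝ) < Real.log x ^ ((1 : ℝ) / 512)) :
    ∃ U : Finset ℕ, U ⊆ (range (4 * b - 1)).filter (fun r => r.Coprime (4 * b - 1)) ∧
      (4 * b - 1).totient ≤ 2 * U.card ∧
      (((Icc 1 x).filter (fun q => q.Prime ∧ q % (4 * b - 1) ∈ U ∧ q ∣ n + 2 * b)).card : ℝ) <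
        Real.log (Real.log x) / 128 := by
  classical
  unfold TT at hb
  rw [Finset.mem_filter, Finset.mem_Icc] at hb
  obtain ⟨⟨hb1, hb2⟩, hb3⟩ := hb
  have hβ : s = 2 → b % 2 = β := fun h8 => by
    rcases hb3 with h9 | h9
    · omega
    · exact h9
  have hstep : ∀ e : ℕ, 2 ^ e ≤ ((∏ q ∈ QQ (4 * b - 1) (n + 2 * b) x, q).divisors.filter
      (fun D => 4 * b - 1 ∣ s * D + 1)).card → 2 ^ e ≤ c n + 1 := fun e => two_pow h3 hty hb1 hβ hn
  obtain ⟨m, hm⟩ : ∃ m, m = 4 * b - 1 := ⟨_, rfl⟩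
  rw [← hm] at hstep ⊢
  set l := Real.log (Real.log x) with hldef
  have hM1 : (1 : ℝ) ≤ M := by exact_mod_cast hb1.trans hb2
  have hm4 : m ≤ 4 * M := by omega
  have hm4r : (m : ℝ) ≤ 4 * M := by exact_mod_cast hm4
  have hφ0 : m.totient ≤ 4 * M := (Nat.totient_le _).trans hm4
  have hφ : (m.totient : ℝ) ≤ 4 * M := by exact_mod_cast hφ0
  have hφn : (0 : ℝ) ≤ m.totient := Nat.cast_nonneg _
  have hl0 : 0 ≤ l := by
    have : (0 : ℝ) ≤ 8192 * (M : ℝ) ^ 2 := by positivity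
    linarith
  obtain ⟨R, hR⟩ : ∃ R : ℕ, R = ⌊l / (2048 * M)⌋₊ := ⟨_, rfl⟩
  have hR1 : m ≤ R := by
    rw [hR]
    apply Nat.le_floor
    rw [le_div_iff₀ (by positivity)]
    nlinarith
  have hR2 : (R : ℝ) ≤ l / (2048 * M) := by
    rw [hR]
    exact Nat.floor_le (by positivity)
  have hφR : (m.totient : ℝ) * R ≤ l / 512 := by
    calc (m.totient : ℝ) * R ≤ (4 * M) * (l / (2048 * M)) := mul_le_mul hφ hR2 (Nat.cast_nonneg _) (by positivity)
      _ = l / 512 := by
        field_simp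
        ring
  have hcop : s.Coprime m := by
    rcases hs with rfl | rfl
    · exact Nat.coprime_one_left m
    · rw [Nat.coprime_two_left, Nat.odd_iff]
      omega
  have hQ : ∀ q ∈ QQ m (n + 2 * b) x, q.Prime ∧ q.Coprime m := by
    intro q hq
    unfold QQ at hq
    rw [Finset.mem_filter] at hq
    exact ⟨hq.2.1, hq.2.2.2.1⟩
  rcases h2 m s R (QQ m (n + 2 * b) x) (by omega) hcop hQ hR1 with ⟨U, hU1, hU2, hU3⟩ | hcase
  · refine ⟨U, hU1, hU2, ?_⟩
    have hsub : (Icc 1 x).filter (fun q => q.Prime ∧ q % m ∈ U ∧ q ∣ n + 2 * b) ⊆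
        insert 2 ((QQ m (n + 2 * b) x).filter (fun q => q % m ∈ U)) := by
      intro q hq
      rw [Finset.mem_filter] at hq
      rw [Finset.mem_insert]
      by_cases h2 : q = 2
      · exact Or.inl h2
      · right
        rw [Finset.mem_filter]
        refine ⟨?_, hq.2.2.1⟩
        unfold QQ
        rw [Finset.mem_filter]
        have := hU1 hq.2.2.1
        rw [Finset.mem_filter] at this
        exact ⟨hq.1, hq.2.1, h2, cop_mod this.2, hq.2.2.2⟩
    have h5 := (Finset.card_le_card hsub).trans (Finset.card_insert_le _ _)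
    have h6 : ((Icc 1 x).filter (fun q => q.Prime ∧ q % m ∈ U ∧ q ∣ n + 2 * b)).card ≤ m.totient * R + 1 :=
      h5.trans (Nat.add_le_add_right hU3 1)
    have h7 : (((Icc 1 x).filter (fun q => q.Prime ∧ q % m ∈ U ∧ q ∣ n + 2 * b)).card : ℝ) ≤
        (m.totient : ℝ) * R + 1 := by exact_mod_cast h6
    nlinarith
  · have hall : ((range m).filter (fun r => r.Coprime m)).card = m.totient := by
      rw [Nat.totient]
      congr 1
      apply Finset.filter_congr
      intro r _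
      exact Nat.coprime_comm
    refine ⟨(range m).filter (fun r => r.Coprime m), Finset.Subset.refl _, by rw [hall]; omega, ?_⟩
    have hsub : (Icc 1 x).filter (fun q => q.Prime ∧ q % m ∈ (range m).filter (fun r => r.Coprime m) ∧ q ∣ n + 2 * b) ⊆
        insert 2 (QQ m (n + 2 * b) x) := by
      intro q hq
      rw [Finset.mem_filter, Finset.mem_filter] at hq
      rw [Finset.mem_insert]
      by_cases h2 : q = 2
      · exact Or.inl h2
      · right
        unfold QQ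
        rw [Finset.mem_filter]
        exact ⟨hq.1, hq.2.1, h2, cop_mod hq.2.2.1.2, hq.2.2.2⟩
    have h5 := (Finset.card_le_card hsub).trans (Finset.card_insert_le _ _)
    have h6 := hstep _ hcase
    obtain ⟨e, he⟩ : ∃ e, e = (QQ m (n + 2 * b) x).card - m.totient * R - m.totient ^ 2 := ⟨_, rfl⟩
    rw [← he] at h6
    have h7 : (QQ m (n + 2 * b) x).card ≤ e + m.totient * R + m.totient ^ 2 := by omega
    have h8 : (((Icc 1 x).filter (fun q => q.Prime ∧ q % m ∈ (range m).filter (fun r => r.Coprime m) ∧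
        q ∣ n + 2 * b)).card : ℝ) ≤ (e + (m.totient : ℝ) * R + (m.totient : ℝ) ^ 2) + 1 := by
      exact_mod_cast h5.trans (Nat.add_le_add_right h7 1)
    have h9 : (m.totient : ℝ) ^ 2 ≤ 16 * (M : ℝ) ^ 2 := by nlinarith
    -- the exponent
    have hy : Real.log x ^ ((1 : ℝ) / 512) = Real.exp (l / 512) := by
      rw [Real.rpow_def_of_pos hL]
      congr 1
      rw [← hldef]; ring
    have hy1 : 1 ≤ Real.exp (l / 512) := Real.one_le_exp (by positivity)
    have hlog2 : 0.6931 < Real.log 2 := by linarith [Real.log_two_gt_d9]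
    have h10 : (2 : ℝ) ^ e < 2 * Real.exp (l / 512) := by
      have : ((2 ^ e : ℕ) : ℝ) ≤ ((c n + 1 : ℕ) : ℝ) := by exact_mod_cast h6
      push_cast at this
      rw [hy] at hc
      linarith
    have h11 : (e : ℝ) * Real.log 2 < Real.log 2 + l / 512 := by
      have h12 : (2 : ℝ) ^ e = Real.exp (e * Real.log 2) := by
        rw [Real.exp_nat_mul, Real.exp_log (by norm_num)]
      have h13 : 2 * Real.exp (l / 512) = Real.exp (Real.log 2 + l / 512) := by
        rw [Real.exp_add, Real.exp_log (by norm_num)]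
      rw [h12, h13] at h10
      exact Real.exp_lt_exp.1 h10
    have h14 : (e : ℝ) < 1 + l / 512 * 1.443 := by
      by_contra hcon
      push Not at hcon
      have h15 : l / 512 * 1.443 ≤ (e : ℝ) - 1 := by linarith
      have h16 := mul_le_mul_of_nonneg_right h15 (by linarith : (0 : ℝ) ≤ Real.log 2)
      have h17 : l / 512 * 1.443 * 0.6931 ≤ l / 512 * 1.443 * Real.log 2 :=
        mul_le_mul_of_nonneg_left hlog2.le (by positivity)
      nlinarith
    have hM2 : (0 : ℝ) ≤ (M : ℝ) ^ 2 := by positivity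
    linarith

theorem exV {s β n x M : ℕ} (h2 : Blk5) (h3 : Sol) (hs : s = 1 ∨ s = 2) (hty : Ty s β n)
    (hn : 1 ≤ n) (hl : 8192 * (M : ℝ) ^ 2 + 1000 ≤ Real.log (Real.log x)) (hL : 0 < Real.log x)
    (hc : (c n : ℝ) < Real.log x ^ ((1 : ℝ) / 512)) :
    ∃ V ∈ ((range (M + 1)) ×ˢ (range (4 * M))).powerset, (∀ b ∈ TT s β M, Good V b) ∧
      ∀ b ∈ TT s β M, ((HV V b n x).card : ℝ) < Real.log (Real.log x) / 128 := by
  classical
  have h := fun b (hb : b ∈ TT s β M) => perb h2 h3 hs hty hb hn hl hL hc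
  choose! U hU1 hU2 hU3 using h
  have key : ∀ b ∈ TT s β M, ∀ r, (b, r) ∈ ((range (M + 1)) ×ˢ (range (4 * M))).filter
      (fun p => p.1 ∈ TT s β M ∧ p.2 ∈ U p.1) ↔ r ∈ U b := by
    intro b hb r
    rw [Finset.mem_filter, Finset.mem_product, Finset.mem_range, Finset.mem_range]
    constructor
    · intro h; exact h.2.2
    · intro h
      have h1 := hU1 b hb h
      rw [Finset.mem_filter, Finset.mem_range] at h1
      have h4 := hb
      unfold TT at h4
      rw [Finset.mem_filter, Finset.mem_Icc] at h4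
      exact ⟨⟨by dsimp only; omega, by dsimp only; omega⟩, hb, h⟩
  refine ⟨_, Finset.mem_powerset.2 (Finset.filter_subset (fun p => p.1 ∈ TT s β M ∧ p.2 ∈ U p.1) _), ?_, ?_⟩
  · intro b hb
    unfold Good
    refine (hU2 b hb).trans (Nat.mul_le_mul_left 2 (Finset.card_le_card ?_))
    intro r hr
    have h1 := hU1 b hb hr
    rw [Finset.mem_filter] at h1 ⊢
    exact ⟨h1.1, h1.2, (key b hb r).2 hr⟩
  · intro b hb
    refine lt_of_le_of_lt ?_ (hU3 b hb)
    have : (HV (((range (M + 1)) ×ˢ (range (4 * M))).filter (fun p => p.1 ∈ TT s β M ∧ p.2 ∈ U p.1)) b n x) ⊆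
        (Icc 1 x).filter (fun q => q.Prime ∧ q % (4 * b - 1) ∈ U b ∧ q ∣ n + 2 * b) := by
      intro q hq
      unfold HV at hq
      rw [Finset.mem_filter] at hq ⊢
      exact ⟨hq.1, hq.2.1, (key b hb _).1 hq.2.2.1, hq.2.2.2⟩
    exact_mod_cast Finset.card_le_card this

/-- the exceptions of one type -/
noncomputable def FF (s β x : ℕ) : Finset ℕ :=
  @Finset.filter ℕ (fun n => Ty s β n ∧ (c n : ℝ) < Real.log x ^ ((1 : ℝ) / 512)) (Classical.decPred _) (Icc 1 x)

theorem mem_FF {s β x n : ℕ} : n ∈ FF s β x ↔ n ∈ Icc 1 x ∧ Ty s β n ∧ (c n : ℝ) < Real.log x ^ ((1 : ℝ) / 512) :=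
  @Finset.mem_filter ℕ _ (Classical.decPred _) _ _

theorem one {s β : ℕ} (h1 : Sv5) (h2 : Blk5) (h3 : Sol) (hs : s = 1 ∨ s = 2) (hβ : β = 0 ∨ β = 1) (A : ℕ) :
    ∃ B : ℝ, ∀ x : ℕ, 2 ≤ x →
      ((FF s β x).card : ℝ) ≤ B * x / Real.log x ^ A := by
  classical
  obtain ⟨M, hM⟩ := h1 A s β hs hβ
  have hex : ∀ V : Finset (ℕ × ℕ), ∃ B : ℝ, (∀ b ∈ TT s β M, Good V b) → ∀ x : ℕ, 2 ≤ x →
      (((Icc 1 x).filter (fun n => ∀ b ∈ TT s β M,
        ((HV V b n x).card : ℝ) < Real.log (Real.log x) / 128)).card : ℝ) ≤ B * x / Real.log x ^ A := by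
    intro V
    by_cases h : ∀ b ∈ TT s β M, Good V b
    · obtain ⟨B, hB⟩ := hM V h
      exact ⟨B, fun _ x hx => by convert hB x hx⟩
    · exact ⟨0, fun h' => absurd h' h⟩
  choose B hB using hex
  set P := ((range (M + 1)) ×ˢ (range (4 * M))).powerset with hP
  set K : ℝ := 8192 * (M : ℝ) ^ 2 + 1000 with hK
  refine ⟨∑ V ∈ P, |B V| + Real.exp K ^ A, fun x hx => ?_⟩
  have hx0 : (0 : ℝ) < x := by exact_mod_cast (show 0 < x by omega)
  have hL : 0 < Real.log x := Real.log_pos (by exact_mod_cast (show 1 < x by omega))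
  have hLA : 0 < Real.log x ^ A := by positivity
  have hS : 0 ≤ ∑ V ∈ P, |B V| := Finset.sum_nonneg fun _ _ => abs_nonneg _
  rcases le_or_gt K (Real.log (Real.log x)) with hbig | hsmall
  · have hsub : FF s β x ⊆ (P.filter (fun V => ∀ b ∈ TT s β M, Good V b)).biUnion (fun V =>
          (Icc 1 x).filter (fun n => ∀ b ∈ TT s β M, ((HV V b n x).card : ℝ) < Real.log (Real.log x) / 128)) := by
      intro n hn
      rw [mem_FF] at hn
      obtain ⟨V, hV1, hV2, hV3⟩ := exV h2 h3 hs hn.2.1 (Finset.mem_Icc.1 hn.1).1 hbig hL hn.2.2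
      rw [Finset.mem_biUnion]
      exact ⟨V, Finset.mem_filter.2 ⟨hV1, hV2⟩, Finset.mem_filter.2 ⟨hn.1, hV3⟩⟩
    have hcard := (Finset.card_le_card hsub).trans Finset.card_biUnion_le
    have hcard' : ((FF s β x).card : ℝ) ≤ ∑ V ∈ P.filter (fun V => ∀ b ∈ TT s β M, Good V b),
          (((Icc 1 x).filter (fun n => ∀ b ∈ TT s β M,
            ((HV V b n x).card : ℝ) < Real.log (Real.log x) / 128)).card : ℝ) := by exact_mod_cast hcard
    refine hcard'.trans ?_
    have h5 : ∑ V ∈ P.filter (fun V => ∀ b ∈ TT s β M, Good V b),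
          (((Icc 1 x).filter (fun n => ∀ b ∈ TT s β M,
            ((HV V b n x).card : ℝ) < Real.log (Real.log x) / 128)).card : ℝ) ≤
        ∑ V ∈ P.filter (fun V => ∀ b ∈ TT s β M, Good V b), |B V| * x / Real.log x ^ A := by
      refine Finset.sum_le_sum fun V hV => ?_
      refine (hB V (Finset.mem_filter.1 hV).2 x hx).trans ?_
      have := le_abs_self (B V)
      gcongr
    refine h5.trans ?_
    have h6 : ∑ V ∈ P.filter (fun V => ∀ b ∈ TT s β M, Good V b), |B V| * x / Real.log x ^ A ≤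
        ∑ V ∈ P, |B V| * x / Real.log x ^ A :=
      Finset.sum_le_sum_of_subset_of_nonneg (Finset.filter_subset _ _) fun V _ _ => by
        have := abs_nonneg (B V)
        positivity
    refine h6.trans ?_
    have h7 : ∑ V ∈ P, |B V| * x / Real.log x ^ A = (∑ V ∈ P, |B V|) * x / Real.log x ^ A := by
      rw [Finset.sum_mul, Finset.sum_div]
    rw [h7]
    have h8 : 0 ≤ Real.exp K ^ A := by positivity
    have h9 : (∑ V ∈ P, |B V|) ≤ ∑ V ∈ P, |B V| + Real.exp K ^ A := by linarith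
    gcongr
  · have hcard : (FF s β x).card ≤ x := by
      refine (Finset.card_le_card (fun n hn => (mem_FF.1 hn).1)).trans ?_
      rw [Nat.card_Icc]
      omega
    have hcard' : ((FF s β x).card : ℝ) ≤ x := by exact_mod_cast hcard
    refine hcard'.trans ?_
    rw [le_div_iff₀ hLA]
    have h4 : Real.log x < Real.exp K := (Real.log_lt_iff_lt_exp hL).1 hsmall
    have h5 : Real.log x ^ A ≤ Real.exp K ^ A := pow_le_pow_left₀ hL.le h4.le A
    calc (x : ℝ) * Real.log x ^ A ≤ x * (∑ V ∈ P, |B V| + Real.exp K ^ A) := by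
          apply mul_le_mul_of_nonneg_left (by linarith) hx0.le
      _ = (∑ V ∈ P, |B V| + Real.exp K ^ A) * x := by ring

theorem asm77 : Asm5 := by
  intro h1 h2 h3
  refine ⟨1 / 512, by norm_num, fun A => ?_⟩
  obtain ⟨B1, H1⟩ := one (s := 1) (β := 0) h1 h2 h3 (Or.inl rfl) (Or.inl rfl) A
  obtain ⟨B2, H2⟩ := one (s := 2) (β := 1) h1 h2 h3 (Or.inr rfl) (Or.inr rfl) A
  obtain ⟨B3, H3⟩ := one (s := 2) (β := 0) h1 h2 h3 (Or.inr rfl) (Or.inl rfl) A
  refine ⟨B1 + B2 + B3, fun x hx => ?_⟩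
  classical
  have hsub : (Icc 1 x).filter (fun n => (c n : ℝ) < Real.log x ^ ((1 : ℝ) / 512)) ⊆
      (FF 1 0 x ∪ FF 2 1 x) ∪ FF 2 0 x := by
    intro n hn
    rw [Finset.mem_filter] at hn
    obtain ⟨hn1, hn2⟩ := hn
    rw [Finset.mem_union, Finset.mem_union, mem_FF, mem_FF, mem_FF]
    have h4 : n % 4 = 0 ∨ n % 4 = 2 ∨ n % 2 = 1 := by omega
    rcases h4 with h4 | h4 | h4
    · exact Or.inl (Or.inr ⟨hn1, Or.inr (Or.inl ⟨rfl, rfl, h4⟩), hn2⟩)
    · exact Or.inr ⟨hn1, Or.inr (Or.inr ⟨rfl, rfl, h4⟩), hn2⟩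
    · exact Or.inl (Or.inl ⟨hn1, Or.inl ⟨rfl, h4⟩, hn2⟩)
  have hcard := (Finset.card_le_card hsub).trans ((Finset.card_union_le _ _).trans
    (Nat.add_le_add_right (Finset.card_union_le _ _) _))
  have k1 := H1 x hx
  have k2 := H2 x hx
  have k3 := H3 x hx
  have hcard' : (((Icc 1 x).filter (fun n => (c n : ℝ) < Real.log x ^ ((1 : ℝ) / 512))).card : ℝ) ≤
      ((FF 1 0 x).card : ℝ) + ((FF 2 1 x).card : ℝ) + ((FF 2 0 x).card : ℝ) := by exact_mod_cast hcard
  have k5 : (B1 + B2 + B3) * x / Real.log x ^ A = B1 * x / Real.log x ^ A + B2 * x / Real.log x ^ A +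
      B3 * x / Real.log x ^ A := by ring
  rw [k5]
  refine le_trans ?_ (add_le_add (add_le_add k1 k2) k3)
  exact hcard'

end Pool.Agent.BR5.Asm77
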