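import Pool.Agent.BR5.Stmts

/-!
# MP_5de915_nt: rich and poor classes
-/

set_option autoImplicit false

namespace Pool.Agent.BR5.Blk575

open Finset

section grp

variable {G : Type} [CommGroup G] [Fintype G] [DecidableEq G]

lemma gen (H : Finset G) (k : G) (hk : k ∈ Subgroup.closure (H : Set G)) :
    ∃ e : G → ℕ, (∀ g, e g < Fintype.card G) ∧ ∏ g ∈ H, g ^ e g = k := by
  have hpos : 0 < Fintype.card G := Fintype.card_pos
  have red : ∀ e : G → ℕ, ∃ e' : G → ℕ, (∀ g, e' g < Fintype.card G) ∧
      ∏ g ∈ H, g ^ e' g = ∏ g ∈ H, g ^ e g := by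
    intro e
    exact ⟨fun g => e g % Fintype.card G, fun g => Nat.mod_lt _ hpos,
      Finset.prod_congr rfl (fun g _ => pow_mod_card g (e g))⟩
  suffices h : ∃ e : G → ℕ, ∏ g ∈ H, g ^ e g = k by
    obtain ⟨e, he⟩ := h
    obtain ⟨e', h1, h2⟩ := red e
    exact ⟨e', h1, h2.trans he⟩
  induction hk using Subgroup.closure_induction with
  | mem x hx =>
    refine ⟨fun g => if g = x then 1 else 0, ?_⟩
    rw [Finset.prod_eq_single x]
    · simp
    · intro b _ hb; simp [hb]
    · intro h; exact absurd hx h
  | one => exact ⟨fun _ => 0, by simp⟩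
  | mul x y _ _ hx hy =>
    obtain ⟨e, he⟩ := hx
    obtain ⟨e', he'⟩ := hy
    refine ⟨fun g => e g + e' g, ?_⟩
    simp only [pow_add]
    rw [Finset.prod_mul_distrib, he, he']
  | inv x _ hx =>
    obtain ⟨e, he⟩ := hx
    refine ⟨fun g => e g * (Fintype.card G - 1), ?_⟩
    simp only [pow_mul]
    rw [Finset.prod_pow, he]
    apply eq_inv_of_mul_eq_one_left
    rw [← pow_succ, Nat.sub_add_cancel hpos, pow_card_eq_one]

theorem absG {ι : Type} [DecidableEq ι] (Q : Finset ι) (f : ι → G) (R : ℕ) (hR : Fintype.card G ≤ R) (g0 : G) :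
    (∃ U : Finset G, Fintype.card G ≤ 2 * U.card ∧
      (Q.filter (fun q => f q ∈ U)).card ≤ Fintype.card G * R) ∨
    2 ^ (Q.card - Fintype.card G * R - Fintype.card G ^ 2) ≤
      (Q.powerset.filter (fun C => ∏ q ∈ C, f q = g0)).card := by
  classical
  set Rich : Finset G := univ.filter (fun g => R < (Q.filter (fun q => f q = g)).card) with hRich
  have hpoor : ∀ U : Finset G, Disjoint U Rich →
      (Q.filter (fun q => f q ∈ U)).card ≤ Fintype.card G * R := by
    intro U hU
    have h1 : (Q.filter (fun q => f q ∈ U)).card =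
        ∑ g ∈ U, ((Q.filter (fun q => f q ∈ U)).filter (fun q => f q = g)).card :=
      Finset.card_eq_sum_card_fiberwise (fun q hq => (Finset.mem_filter.1 hq).2)
    rw [h1]
    calc ∑ g ∈ U, ((Q.filter (fun q => f q ∈ U)).filter (fun q => f q = g)).card ≤ ∑ _g ∈ U, R := by
          apply Finset.sum_le_sum
          intro g hg
          have h2 : ¬ R < (Q.filter (fun q => f q = g)).card := by
            intro h3
            exact (Finset.disjoint_left.1 hU hg) (by rw [hRich, Finset.mem_filter]; exact ⟨Finset.mem_univ _, h3⟩)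
          refine le_trans (Finset.card_le_card ?_) (not_lt.1 h2)
          intro q hq
          rw [Finset.mem_filter, Finset.mem_filter] at hq
          rw [Finset.mem_filter]
          exact ⟨hq.1.1, hq.2⟩
      _ = U.card * R := by rw [Finset.sum_const, smul_eq_mul]
      _ ≤ Fintype.card G * R := Nat.mul_le_mul_right _ (Finset.card_le_univ U)
  by_cases hg : g0 ∈ Subgroup.closure (Rich : Set G)
  · right
    have hres : ∀ g ∈ Rich, ∃ S ⊆ Q.filter (fun q => f q = g), S.card = Fintype.card G := by
      intro g hg'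
      rw [hRich, Finset.mem_filter] at hg'
      exact Finset.exists_subset_card_eq (by omega)
    choose! S hS1 hS2 using hres
    set Sall := Rich.biUnion S with hSall
    have hSc : Sall.card ≤ Fintype.card G ^ 2 := by
      calc Sall.card ≤ ∑ g ∈ Rich, (S g).card := Finset.card_biUnion_le
        _ = ∑ _g ∈ Rich, Fintype.card G := Finset.sum_congr rfl hS2
        _ = Rich.card * Fintype.card G := by rw [Finset.sum_const, smul_eq_mul]
        _ ≤ Fintype.card G * Fintype.card G := Nat.mul_le_mul_right _ (Finset.card_le_univ Rich)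
        _ = Fintype.card G ^ 2 := (sq _).symm
    set W := (Q.filter (fun q => f q ∈ Rich)) \ Sall with hW
    have hWc : Q.card - Fintype.card G * R - Fintype.card G ^ 2 ≤ W.card := by
      have h1 := Finset.card_filter_add_card_filter_not (s := Q) (fun q => f q ∈ Rich)
      have h2 := hpoor (univ \ Rich) Finset.sdiff_disjoint
      have h3 : (Q.filter (fun q => ¬ f q ∈ Rich)) = Q.filter (fun q => f q ∈ univ \ Rich) := by
        apply Finset.filter_congr
        intro q _
        simp
      have h4 := Finset.le_card_sdiff Sall (Q.filter (fun q => f q ∈ Rich))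
      rw [← hW] at h4
      rw [h3] at h1
      omega
    refine (Nat.pow_le_pow_right (by norm_num) hWc).trans ?_
    rw [← Finset.card_powerset]
    refine Finset.card_le_card_of_surjOn (fun C => C ∩ W) ?_
    intro A hA
    rw [Finset.mem_coe, Finset.mem_powerset] at hA
    have hAK : ∏ q ∈ A, f q ∈ Subgroup.closure (Rich : Set G) := by
      apply Subgroup.prod_mem
      intro q hq
      apply Subgroup.subset_closure
      exact (Finset.mem_filter.1 (Finset.mem_sdiff.1 (hA hq)).1).2
    obtain ⟨e, he1, he2⟩ := gen Rich (g0 * (∏ q ∈ A, f q)⁻¹) (mul_mem hg (inv_mem hAK))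
    have hT : ∀ g ∈ Rich, ∃ T ⊆ S g, T.card = e g := by
      intro g hg'
      exact Finset.exists_subset_card_eq (by rw [hS2 g hg']; exact (he1 g).le)
    choose! T hT1 hT2 using hT
    set B := Rich.biUnion T with hB
    have hBS : B ⊆ Sall := by
      intro q hq
      rw [hB, Finset.mem_biUnion] at hq
      obtain ⟨g, hg1, hg2⟩ := hq
      rw [hSall, Finset.mem_biUnion]
      exact ⟨g, hg1, hT1 g hg1 hg2⟩
    have hTf : ∀ g ∈ Rich, ∀ q ∈ T g, f q = g :=
      fun g hg1 q hq => (Finset.mem_filter.1 (hS1 g hg1 (hT1 g hg1 hq))).2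
    have hBprod : ∏ q ∈ B, f q = g0 * (∏ q ∈ A, f q)⁻¹ := by
      rw [hB, Finset.prod_biUnion, ← he2]
      · apply Finset.prod_congr rfl
        intro g hg1
        rw [Finset.prod_congr rfl (hTf g hg1), Finset.prod_const, hT2 g hg1]
      · intro g hg1 g' hg1' hne
        rw [Function.onFun, Finset.disjoint_left]
        intro q hq hq'
        exact hne ((hTf g hg1 q hq).symm.trans (hTf g' hg1' q hq'))
    have hAS : Disjoint A Sall :=
      Finset.disjoint_left.2 (fun q hq hq' => (Finset.mem_sdiff.1 (hA hq)).2 hq')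
    have hAB : Disjoint A B := hAS.mono_right hBS
    refine ⟨A ∪ B, ?_, ?_⟩
    · rw [Finset.mem_coe, Finset.mem_filter, Finset.mem_powerset]
      refine ⟨Finset.union_subset ?_ ?_, ?_⟩
      · intro q hq
        exact (Finset.mem_filter.1 (Finset.mem_sdiff.1 (hA hq)).1).1
      · intro q hq
        rw [hB, Finset.mem_biUnion] at hq
        obtain ⟨g, hg1, hg2⟩ := hq
        exact (Finset.mem_filter.1 (hS1 g hg1 (hT1 g hg1 hg2))).1
      · rw [Finset.prod_union hAB, hBprod]
        rw [mul_comm, mul_assoc, inv_mul_cancel, mul_one]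
    · ext q
      simp only [Finset.mem_inter, Finset.mem_union]
      constructor
      · rintro ⟨h | h, hw⟩
        · exact h
        · exact absurd (hBS h) (Finset.mem_sdiff.1 hw).2
      · intro h
        exact ⟨Or.inl h, hA h⟩
  · left
    refine ⟨univ.filter (fun g => g ∉ Subgroup.closure (Rich : Set G)), ?_, ?_⟩
    · set K := Subgroup.closure (Rich : Set G) with hK
      have h1 : (univ.filter (fun g => g ∈ K)).card = Nat.card K := by
        rw [Nat.card_eq_fintype_card, Fintype.card_subtype]
      have h2 := Finset.card_filter_add_card_filter_not (s := (univ : Finset G)) (fun g => g ∈ K)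
      have h3 : Nat.card K * K.index = Nat.card G := Subgroup.card_mul_index K
      have h4 : K.index ≠ 1 := by
        intro h
        rw [Subgroup.index_eq_one] at h
        exact hg (by rw [h]; exact Subgroup.mem_top g0)
      have h5 : 0 < Nat.card G := Nat.card_pos
      have h6 : K.index ≠ 0 := by
        intro h
        rw [h, mul_zero] at h3
        omega
      have h7 : Nat.card K * 2 ≤ Nat.card K * K.index := Nat.mul_le_mul_left _ (by omega)
      rw [Nat.card_eq_fintype_card (α := G)] at h3
      rw [Finset.card_univ] at h2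
      omega
    · apply hpoor
      rw [Finset.disjoint_left]
      intro g hg1 hg2
      exact (Finset.mem_filter.1 hg1).2 (Subgroup.subset_closure hg2)

end grp

/-- row BLK5 -/
theorem blk575 : Blk5 := by
  classical
  intro m s R Q hm hs hQ hR
  haveI : NeZero m := ⟨by omega⟩
  have hcard : Fintype.card (ZMod m)ˣ = m.totient := ZMod.card_units_eq_totient m
  set f : ℕ → (ZMod m)ˣ := fun q => if h : q.Coprime m then ZMod.unitOfCoprime q h else 1 with hf
  have hfq : ∀ q : ℕ, q.Coprime m → ((f q : (ZMod m)ˣ) : ZMod m) = (q : ZMod m) := by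
    intro q h
    rw [hf]
    simp only [dif_pos h]
    rfl
  have hR' : Fintype.card (ZMod m)ˣ ≤ R := by
    rw [hcard]
    exact (Nat.totient_le m).trans hR
  rcases absG Q f R hR' (-(ZMod.unitOfCoprime s hs)⁻¹) with ⟨U, h1, h2⟩ | h
  · left
    refine ⟨U.image (fun g : (ZMod m)ˣ => ((g : ZMod m)).val), ?_, ?_, ?_⟩
    · intro r hr
      obtain ⟨g, hg, rfl⟩ := Finset.mem_image.1 hr
      rw [Finset.mem_filter, Finset.mem_range]
      exact ⟨ZMod.val_lt _, ZMod.val_coe_unit_coprime g⟩
    · rw [Finset.card_image_of_injective, ← hcard]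
      · exact h1
      · intro g g' he
        exact Units.ext (ZMod.val_injective m he)
    · rw [← hcard]
      refine le_trans (Finset.card_le_card ?_) h2
      intro q hq
      rw [Finset.mem_filter] at hq ⊢
      refine ⟨hq.1, ?_⟩
      obtain ⟨g, hg, he⟩ := Finset.mem_image.1 hq.2
      have h3 : f q = g := by
        apply Units.ext
        rw [hfq q (hQ q hq.1).2]
        apply ZMod.val_injective m
        rw [ZMod.val_natCast]
        exact he.symm
      rw [h3]
      exact hg
  · right
    rw [hcard] at h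
    refine h.trans ?_
    refine Finset.card_le_card_of_injOn (fun C => ∏ q ∈ C, q) ?_ ?_
    · intro C hC
      rw [Finset.mem_coe, Finset.mem_filter, Finset.mem_powerset] at hC
      rw [Finset.mem_coe, Finset.mem_filter, Nat.mem_divisors]
      refine ⟨⟨Finset.prod_dvd_prod_of_subset _ _ _ hC.1,
        Finset.prod_ne_zero_iff.2 (fun q hq => (hQ q hq).1.ne_zero)⟩, ?_⟩
      rw [← ZMod.natCast_eq_zero_iff]
      have h3 : ((∏ q ∈ C, q : ℕ) : ZMod m) = ((∏ q ∈ C, f q : (ZMod m)ˣ) : ZMod m) := by
        rw [Nat.cast_prod, Units.coe_prod]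
        exact Finset.prod_congr rfl (fun q hq => (hfq q (hQ q (hC.1 hq)).2).symm)
      have h4 : ((s : ℕ) : ZMod m) = ((ZMod.unitOfCoprime s hs : (ZMod m)ˣ) : ZMod m) := rfl
      push_cast
      rw [← Nat.cast_prod, h3, hC.2, h4]
      rw [Units.val_neg, mul_neg, ← Units.val_mul, mul_inv_cancel, Units.val_one]
      ring
    · intro C hC D hD he
      rw [Finset.mem_coe, Finset.mem_filter, Finset.mem_powerset] at hC hD
      have h3 := Nat.primeFactors_prod (fun q hq => (hQ q (hC.1 hq)).1)
      have h4 := Nat.primeFactors_prod (fun q hq => (hQ q (hD.1 hq)).1)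
      simp only at he
      rw [← h3, ← h4, he]

end Pool.Agent.BR5.Blk575
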