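import Pool.Agent.BR5.Stmts

/-! Row BLK5 (helper64): rich and poor classes. -/

set_option autoImplicit false

namespace Pool.Agent.BR5.Blk64

open Finset

section G

variable {G : Type*} [CommGroup G] [Fintype G] [DecidableEq G]

lemma repr (X : Finset G) {h : G} (hh : h ∈ Subgroup.closure (X : Set G)) :
    ∃ e : G → ℕ, (∀ g, g ∉ X → e g = 0) ∧ ∏ g, g ^ e g = h := by
  induction hh using Subgroup.closure_induction with
  | mem x hx =>
    refine ⟨Pi.single x 1, fun g hg => ?_, ?_⟩
    · rw [Pi.single_eq_of_ne]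
      rintro rfl
      exact hg hx
    · rw [Finset.prod_eq_single x]
      · simp
      · intro b _ hb
        rw [Pi.single_eq_of_ne hb, pow_zero]
      · simp
  | one => exact ⟨0, fun _ _ => rfl, by simp⟩
  | mul x y _ _ hx hy =>
    obtain ⟨e, he, hx⟩ := hx
    obtain ⟨f, hf, hy⟩ := hy
    refine ⟨e + f, fun g hg => by simp [he g hg, hf g hg], ?_⟩
    rw [← hx, ← hy, ← Finset.prod_mul_distrib]
    exact Finset.prod_congr rfl fun g _ => by rw [Pi.add_apply, pow_add]
  | inv x _ hx =>
    obtain ⟨e, he, hx⟩ := hx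
    refine ⟨fun g => e g * (Fintype.card G - 1), fun g hg => by simp [he g hg], ?_⟩
    have h1 : ∏ g : G, g ^ (e g * (Fintype.card G - 1)) = x ^ (Fintype.card G - 1) := by
      rw [← hx, ← Finset.prod_pow]
      exact Finset.prod_congr rfl fun g _ => by rw [pow_mul]
    rw [h1]
    have h2 : x ^ (Fintype.card G - 1) * x = 1 := by
      rw [← pow_succ, Nat.sub_add_cancel Fintype.card_pos, pow_card_eq_one]
    exact eq_inv_of_mul_eq_one_left h2

lemma reserve (cl : ℕ → G) (Q : Finset ℕ) (X : Finset G)
    (hX : ∀ g ∈ X, Fintype.card G ≤ (Q.filter (fun q => cl q = g)).card) :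
    ∃ Rsv ⊆ Q, Rsv.card ≤ Fintype.card G ^ 2 ∧
      ∀ h ∈ Subgroup.closure (X : Set G), ∃ W ⊆ Rsv, ∏ q ∈ W, cl q = h := by
  have h0 : ∀ g : G, ∃ T ⊆ Q.filter (fun q => cl q = g), (g ∈ X → T.card = Fintype.card G) ∧
      T.card ≤ Fintype.card G := by
    intro g
    by_cases hg : g ∈ X
    · obtain ⟨T, hT, hc⟩ := exists_subset_card_eq (hX g hg)
      exact ⟨T, hT, fun _ => hc, hc.le⟩
    · exact ⟨∅, empty_subset _, fun h => absurd h hg, by simp⟩
  choose T hT hTc hTl using h0
  refine ⟨univ.biUnion T, ?_, ?_, ?_⟩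
  · intro q hq
    obtain ⟨g, -, h1⟩ := mem_biUnion.1 hq
    exact (mem_filter.1 (hT g h1)).1
  · refine card_biUnion_le.trans ((sum_le_sum fun g _ => hTl g).trans ?_)
    rw [sum_const, smul_eq_mul, card_univ, sq]
  · intro h hh
    obtain ⟨e, he, hprod⟩ := repr X hh
    have h1 : ∀ g : G, ∃ W ⊆ T g, W.card = e g % Fintype.card G := by
      intro g
      apply exists_subset_card_eq
      by_cases hg : g ∈ X
      · rw [hTc g hg]
        exact (Nat.mod_lt _ Fintype.card_pos).le
      · rw [he g hg]
        simp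
    choose W hW hWc using h1
    refine ⟨univ.biUnion W, biUnion_mono fun g _ => hW g, ?_⟩
    have hcl : ∀ g, ∀ q ∈ W g, cl q = g := fun g q hq => (mem_filter.1 (hT g (hW g hq))).2
    rw [prod_biUnion]
    · rw [← hprod]
      apply prod_congr rfl
      intro g _
      rw [prod_congr rfl (hcl g), prod_const, hWc g, pow_mod_card]
    · intro g _ g' _ hne
      rw [Function.onFun, disjoint_left]
      intro q hq hq'
      exact hne ((hcl g q hq).symm.trans (hcl g' q hq'))

lemma many (cl : ℕ → G) (Q : Finset ℕ) (R : ℕ) (hR : Fintype.card G ≤ R) (X : Finset G)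
    (hX : X = univ.filter (fun g => R < (Q.filter (fun q => cl q = g)).card)) {g0 : G}
    (hg : g0 ∈ Subgroup.closure (X : Set G)) :
    2 ^ (Q.card - Fintype.card G * R - Fintype.card G ^ 2) ≤
      (Q.powerset.filter (fun S => ∏ q ∈ S, cl q = g0)).card := by
  obtain ⟨Rsv, hRQ, hRc, hR1⟩ := reserve cl Q X (fun g hg => by
    rw [hX, mem_filter] at hg
    exact hR.trans hg.2.le)
  set F := Q.filter (fun q => cl q ∈ X) \ Rsv with hF
  have hc1 : (Q.filter (fun q => ¬ cl q ∈ X)).card ≤ Fintype.card G * R := by
    have h1 : Q.filter (fun q => ¬ cl q ∈ X) ⊆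
        (univ.filter (fun g => g ∉ X)).biUnion (fun g => Q.filter (fun q => cl q = g)) := by
      intro q hq
      rw [mem_filter] at hq
      rw [mem_biUnion]
      exact ⟨cl q, by rw [mem_filter]; exact ⟨mem_univ _, hq.2⟩, by rw [mem_filter]; exact ⟨hq.1, rfl⟩⟩
    refine (card_le_card h1).trans (card_biUnion_le.trans ?_)
    have h2 : ∀ g ∈ univ.filter (fun g => g ∉ X), (Q.filter (fun q => cl q = g)).card ≤ R := by
      intro g hg
      rw [mem_filter] at hg
      by_contra hcon
      exact hg.2 (by rw [hX, mem_filter]; exact ⟨mem_univ _, not_le.1 hcon⟩)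
    refine (sum_le_sum h2).trans ?_
    rw [sum_const, smul_eq_mul]
    exact Nat.mul_le_mul_right _ ((card_le_univ _))
  have hc2 : Q.card - Fintype.card G * R - Fintype.card G ^ 2 ≤ F.card := by
    have h1 : (Q.filter (fun q => cl q ∈ X)).card + (Q.filter (fun q => ¬ cl q ∈ X)).card = Q.card :=
      card_filter_add_card_filter_not (s := Q) (fun q => cl q ∈ X)
    have h2 : (Q.filter (fun q => cl q ∈ X)).card - Rsv.card ≤ F.card := le_card_sdiff _ _
    omega
  have hS : ∀ S : Finset ℕ, ∃ W, S ⊆ F → (W ⊆ Rsv ∧ ∏ q ∈ W, cl q = g0 * (∏ q ∈ S, cl q)⁻¹) := by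
    intro S
    by_cases h : S ⊆ F
    · have h1 : g0 * (∏ q ∈ S, cl q)⁻¹ ∈ Subgroup.closure (X : Set G) := by
        apply Subgroup.mul_mem _ hg
        apply Subgroup.inv_mem
        apply Subgroup.prod_mem
        intro q hq
        have h2 := h hq
        rw [hF, mem_sdiff, mem_filter] at h2
        exact Subgroup.subset_closure h2.1.2
      obtain ⟨W, hW, hp⟩ := hR1 _ h1
      exact ⟨W, fun _ => ⟨hW, hp⟩⟩
    · exact ⟨∅, fun h' => absurd h' h⟩
  choose W hW using hS
  have hdis : ∀ S ⊆ F, Disjoint S Rsv := by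
    intro S hSF
    rw [disjoint_left]
    intro q hq
    have h2 := hSF hq
    rw [hF, mem_sdiff] at h2
    exact h2.2
  calc 2 ^ (Q.card - Fintype.card G * R - Fintype.card G ^ 2) ≤ 2 ^ F.card :=
        Nat.pow_le_pow_right (by norm_num) hc2
    _ = F.powerset.card := (card_powerset F).symm
    _ ≤ (Q.powerset.filter (fun S => ∏ q ∈ S, cl q = g0)).card := by
      apply card_le_card_of_injOn (fun S => S ∪ W S)
      · intro S hS
        have hSF : S ⊆ F := by simpa using hS
        obtain ⟨h1, h2⟩ := hW S hSF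
        have h3 : Disjoint S (W S) := disjoint_of_subset_right h1 (hdis S hSF)
        rw [mem_coe, mem_filter, mem_powerset]
        refine ⟨union_subset (hSF.trans ?_) (h1.trans hRQ), ?_⟩
        · intro q hq
          rw [hF, mem_sdiff, mem_filter] at hq
          exact hq.1.1
        · rw [prod_union h3, h2]
          rw [mul_comm g0, mul_inv_cancel_left]
      · intro S hS S' hS' he
        have hSF : S ⊆ F := by simpa using hS
        have hSF' : S' ⊆ F := by simpa using hS'
        have h1 : ∀ S ⊆ F, (S ∪ W S) \ Rsv = S := by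
          intro S hSF
          rw [union_sdiff_distrib, sdiff_eq_empty_iff_subset.2 (hW S hSF).1, union_empty]
          exact sdiff_eq_self_of_disjoint (hdis S hSF)
        rw [← h1 S hSF, ← h1 S' hSF']
        exact congrArg (· \ Rsv) he

end G

/-- the class of `q` as a unit -/
noncomputable def cl (m q : ℕ) : (ZMod m)ˣ := if h : q.Coprime m then ZMod.unitOfCoprime q h else 1

lemma cl_val {m q : ℕ} (h : q.Coprime m) : ((cl m q : (ZMod m)ˣ) : ZMod m) = q := by
  unfold cl
  rw [dif_pos h, ZMod.coe_unitOfCoprime]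

lemma cl_mod {m q : ℕ} (h : q.Coprime m) : cl m (q % m) = cl m q := by
  have h1 : (q % m).Coprime m := by
    rw [Nat.Coprime, ← Nat.gcd_rec, Nat.gcd_comm]
    exact h
  apply Units.ext
  rw [cl_val h1, cl_val h, ZMod.natCast_mod]

theorem blk64 : Blk5 := by
  classical
  intro m s R Q hm hs hQ hmR
  haveI : NeZero m := ⟨by omega⟩
  have hN : Fintype.card (ZMod m)ˣ = m.totient := ZMod.card_units_eq_totient m
  have htm : m.totient ≤ m := Nat.totient_le m
  set X : Finset (ZMod m)ˣ := univ.filter (fun g => R < (Q.filter (fun q => cl m q = g)).card) with hX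
  set g0 : (ZMod m)ˣ := -(cl m s)⁻¹ with hg0
  have hval : ((s : ℕ) : ZMod m) * (g0 : ZMod m) = -1 := by
    rw [← cl_val hs, hg0, ← Units.val_mul]
    simp
  by_cases hg : g0 ∈ Subgroup.closure (X : Set (ZMod m)ˣ)
  · right
    have h1 := many (cl m) Q R (by rw [hN]; omega) X hX hg
    rw [hN] at h1
    refine h1.trans ?_
    apply card_le_card_of_injOn (fun S => ∏ q ∈ S, q)
    · intro S hS
      rw [mem_coe, mem_filter, mem_powerset] at hS
      rw [mem_coe, mem_filter, Nat.mem_divisors]
      refine ⟨⟨prod_dvd_prod_of_subset S Q _ hS.1, ?_⟩, ?_⟩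
      · rw [Finset.prod_ne_zero_iff]
        exact fun q hq => (hQ q hq).1.ne_zero
      · rw [← ZMod.natCast_eq_zero_iff]
        have h2 : ((∏ q ∈ S, q : ℕ) : ZMod m) = ((∏ q ∈ S, cl m q : (ZMod m)ˣ) : ZMod m) := by
          rw [Units.coe_prod, Nat.cast_prod]
          exact prod_congr rfl fun q hq => (cl_val (hQ q (hS.1 hq)).2).symm
        rw [Nat.cast_add, Nat.cast_mul, h2, hS.2, hval]
        simp
    · intro S hS S' hS' he
      rw [mem_coe, mem_filter, mem_powerset] at hS hS'
      rw [← Nat.primeFactors_prod (fun p hp => (hQ p (hS.1 hp)).1),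
        ← Nat.primeFactors_prod (fun p hp => (hQ p (hS'.1 hp)).1)]
      exact congrArg Nat.primeFactors he
  · left
    set K := Subgroup.closure (X : Set (ZMod m)ˣ) with hK
    refine ⟨(range m).filter (fun r => r.Coprime m ∧ cl m r ∉ K), ?_, ?_, ?_⟩
    · intro r hr
      rw [mem_filter] at hr ⊢
      exact ⟨hr.1, hr.2.1⟩
    · have h1 : ((range m).filter (fun r => r.Coprime m ∧ cl m r ∈ K)).card ≤ Nat.card K := by
        have h2 : ((range m).filter (fun r => r.Coprime m ∧ cl m r ∈ K)).card ≤
            (univ.filter (fun g : (ZMod m)ˣ => g ∈ K)).card := by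
          apply card_le_card_of_injOn (cl m)
          · intro r hr
            rw [mem_coe, mem_filter] at hr
            rw [mem_coe, mem_filter]
            exact ⟨mem_univ _, hr.2.2⟩
          · intro r hr r' hr' he
            rw [mem_coe, mem_filter, mem_range] at hr hr'
            have h3 : ((r : ℕ) : ZMod m) = r' := by
              rw [← cl_val hr.2.1, ← cl_val hr'.2.1, he]
            rw [ZMod.natCast_eq_natCast_iff'] at h3
            rwa [Nat.mod_eq_of_lt hr.1, Nat.mod_eq_of_lt hr'.1] at h3
        refine h2.trans (le_of_eq ?_)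
        rw [Nat.card_eq_fintype_card, Fintype.card_subtype]
      have h2 : m.totient = ((range m).filter (fun r => r.Coprime m ∧ cl m r ∈ K)).card +
          ((range m).filter (fun r => r.Coprime m ∧ cl m r ∉ K)).card := by
        have h3 : m.totient = ((range m).filter (fun r => r.Coprime m)).card := by
          rw [Nat.totient_eq_card_coprime]
          congr 1
          apply filter_congr
          intro r _
          exact Nat.coprime_comm
        rw [h3, ← card_filter_add_card_filter_not (s := (range m).filter (fun r => r.Coprime m)) (fun r => cl m r ∈ K),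
          filter_filter, filter_filter]
      have h3 : 2 * Nat.card K ≤ m.totient := by
        have h4 : Nat.card K * K.index = m.totient := by
          rw [Subgroup.card_mul_index, Nat.card_eq_fintype_card, hN]
        have h5 : K.index ≠ 1 := by
          intro h6
          rw [Subgroup.index_eq_one] at h6
          exact hg (by rw [h6]; exact Subgroup.mem_top _)
        have h6 : K.index ≠ 0 := Subgroup.index_ne_zero_of_finite
        have h7 : 2 ≤ K.index := by omega
        calc 2 * Nat.card K = Nat.card K * 2 := mul_comm _ _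
          _ ≤ Nat.card K * K.index := Nat.mul_le_mul_left _ h7
          _ = m.totient := h4
      omega
    · have h1 : Q.filter (fun q => q % m ∈ (range m).filter (fun r => r.Coprime m ∧ cl m r ∉ K)) ⊆
          (univ.filter (fun g : (ZMod m)ˣ => g ∉ K)).biUnion (fun g => Q.filter (fun q => cl m q = g)) := by
        intro q hq
        rw [mem_filter, mem_filter] at hq
        rw [mem_biUnion]
        refine ⟨cl m q, ?_, by rw [mem_filter]; exact ⟨hq.1, rfl⟩⟩
        rw [mem_filter]
        refine ⟨mem_univ _, ?_⟩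
        rw [← cl_mod (hQ q hq.1).2]
        exact hq.2.2.2
      refine (card_le_card h1).trans (card_biUnion_le.trans ?_)
      have h2 : ∀ g ∈ univ.filter (fun g : (ZMod m)ˣ => g ∉ K), (Q.filter (fun q => cl m q = g)).card ≤ R := by
        intro g hg'
        rw [mem_filter] at hg'
        by_contra hcon
        apply hg'.2
        rw [hK]
        apply Subgroup.subset_closure
        rw [mem_coe, hX, mem_filter]
        exact ⟨mem_univ _, not_le.1 hcon⟩
      refine (sum_le_sum h2).trans ?_
      rw [sum_const, smul_eq_mul, ← hN]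
      exact Nat.mul_le_mul_right _ (card_le_univ _)

end Pool.Agent.BR5.Blk64
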