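import Pool.Agent.BR5.Stmts

/-!
# Row BLK5: rich and poor classes
-/

set_option autoImplicit false

namespace Pool.Agent.BR5.Blk89

open Finset

/-- the unit class of `q` -/
noncomputable def cl (m q : ℕ) : (ZMod m)ˣ := if h : q.Coprime m then ZMod.unitOfCoprime q h else 1

lemma cl_val {m q : ℕ} (h : q.Coprime m) : ((cl m q : (ZMod m)ˣ) : ZMod m) = q := by
  rw [cl, dif_pos h, ZMod.coe_unitOfCoprime]

/-- elements of the subgroup generated by a finite set of a finite commutative group -/
lemma gen {G : Type*} [CommGroup G] [Fintype G] [DecidableEq G] (S : Finset G) (k : G)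
    (hk : k ∈ Subgroup.closure (S : Set G)) :
    ∃ e : G → ℕ, (∀ g, e g ≤ Fintype.card G) ∧ ∏ g ∈ S, g ^ e g = k := by
  have h1 : ∃ e : G → ℕ, ∏ g ∈ S, g ^ e g = k := by
    induction hk using Subgroup.closure_induction with
    | mem x hx =>
      refine ⟨fun g => if g = x then 1 else 0, ?_⟩
      rw [Finset.prod_eq_single x]
      · simp
      · intro b _ hb
        simp [hb]
      · intro hn
        exact absurd hx (by simpa using hn)
    | one => exact ⟨fun _ => 0, by simp⟩
    | mul x y _ _ hx hy =>
      obtain ⟨e, he⟩ := hx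
      obtain ⟨f, hf⟩ := hy
      refine ⟨fun g => e g + f g, ?_⟩
      rw [← he, ← hf, ← Finset.prod_mul_distrib]
      exact Finset.prod_congr rfl (fun g _ => pow_add _ _ _)
    | inv x _ hx =>
      obtain ⟨e, he⟩ := hx
      refine ⟨fun g => e g * (Fintype.card G - 1), ?_⟩
      have h2 : x⁻¹ = x ^ (Fintype.card G - 1) := by
        have h3 : x ^ (Fintype.card G - 1) * x = 1 := by
          rw [← pow_succ, Nat.sub_add_cancel Fintype.card_pos, pow_card_eq_one]
        exact (eq_inv_of_mul_eq_one_left h3).symm
      rw [h2, ← he, ← Finset.prod_pow]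
      exact Finset.prod_congr rfl (fun g _ => by rw [pow_mul])
  obtain ⟨e, he⟩ := h1
  refine ⟨fun g => e g % orderOf g, fun g => ?_, ?_⟩
  · exact le_trans (Nat.mod_lt _ (orderOf_pos g)).le (orderOf_le_card_univ)
  · rw [← he]
    exact Finset.prod_congr rfl (fun g _ => pow_mod_orderOf g (e g))

theorem blk (m s R : ℕ) (Q : Finset ℕ) (hm : 1 ≤ m) (hs : s.Coprime m)
    (hQ : ∀ q ∈ Q, q.Prime ∧ q.Coprime m) (hmR : m ≤ R) :
    (∃ U : Finset ℕ, U ⊆ (Finset.range m).filter (fun r => r.Coprime m) ∧ m.totient ≤ 2 * U.card ∧
      (Q.filter (fun q => q % m ∈ U)).card ≤ m.totient * R) ∨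
    2 ^ (Q.card - m.totient * R - m.totient ^ 2) ≤ ((∏ q ∈ Q, q).divisors.filter (fun D => m ∣ s * D + 1)).card := by
  classical
  have : NeZero m := ⟨by omega⟩
  have hcard : Fintype.card (ZMod m)ˣ = m.totient := ZMod.card_units_eq_totient m
  set Rc : Finset (ZMod m)ˣ := univ.filter (fun g => R < (Q.filter (fun q => cl m q = g)).card) with hRc
  set K : Subgroup (ZMod m)ˣ := Subgroup.closure (Rc : Set (ZMod m)ˣ) with hK
  set a : (ZMod m)ˣ := -(cl m s)⁻¹ with ha
  -- the poor elements
  have hpoor : (Q.filter (fun q => cl m q ∉ Rc)).card ≤ m.totient * R := by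
    have h1 : Q.filter (fun q => cl m q ∉ Rc) ⊆
        (univ.filter (fun g : (ZMod m)ˣ => g ∉ Rc)).biUnion (fun g => Q.filter (fun q => cl m q = g)) := by
      intro q hq
      rw [mem_filter] at hq
      rw [mem_biUnion]
      exact ⟨cl m q, mem_filter.mpr ⟨mem_univ _, hq.2⟩, mem_filter.mpr ⟨hq.1, rfl⟩⟩
    calc (Q.filter (fun q => cl m q ∉ Rc)).card ≤ _ := card_le_card h1
      _ ≤ ∑ g ∈ univ.filter (fun g : (ZMod m)ˣ => g ∉ Rc), (Q.filter (fun q => cl m q = g)).card :=
          card_biUnion_le
      _ ≤ ∑ g ∈ univ.filter (fun g : (ZMod m)ˣ => g ∉ Rc), R := by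
          apply sum_le_sum
          intro g hg
          rw [mem_filter, hRc, mem_filter] at hg
          by_contra hcon
          exact hg.2 ⟨mem_univ _, by omega⟩
      _ = (univ.filter (fun g : (ZMod m)ˣ => g ∉ Rc)).card * R := by rw [sum_const, smul_eq_mul]
      _ ≤ m.totient * R := by
          apply Nat.mul_le_mul_right
          rw [← hcard]
          exact card_filter_le _ _
  by_cases haK : a ∈ K
  · right
    -- the reserve
    have hex : ∀ g : (ZMod m)ˣ, ∃ P : Finset ℕ, g ∈ Rc → P ⊆ Q.filter (fun q => cl m q = g) ∧ P.card = m.totient := by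
      intro g
      by_cases hg : g ∈ Rc
      · have h1 : m.totient ≤ (Q.filter (fun q => cl m q = g)).card := by
          have h2 := (mem_filter.mp hg).2
          have h3 := Nat.totient_le m
          omega
        obtain ⟨P, hP1, hP2⟩ := exists_subset_card_eq h1
        exact ⟨P, fun _ => ⟨hP1, hP2⟩⟩
      · exact ⟨∅, fun h => absurd h hg⟩
    choose P hP using hex
    set Res : Finset ℕ := Rc.biUnion P with hRes
    set Rest : Finset ℕ := (Q.filter (fun q => cl m q ∈ Rc)) \ Res with hRest
    have hResQ : Res ⊆ Q := by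
      intro q hq
      rw [hRes, mem_biUnion] at hq
      obtain ⟨g, hg, hq⟩ := hq
      exact (mem_filter.mp ((hP g hg).1 hq)).1
    have hRestQ : Rest ⊆ Q := fun q hq => (mem_filter.mp (mem_sdiff.mp hq).1).1
    have hdisj : Disjoint Rest Res := sdiff_disjoint
    have hRescard : Res.card ≤ m.totient ^ 2 := by
      calc Res.card ≤ ∑ g ∈ Rc, (P g).card := card_biUnion_le
        _ = ∑ g ∈ Rc, m.totient := sum_congr rfl (fun g hg => (hP g hg).2)
        _ = Rc.card * m.totient := by rw [sum_const, smul_eq_mul]
        _ ≤ m.totient * m.totient := by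
            apply Nat.mul_le_mul_right
            rw [← hcard]
            exact card_le_univ _
        _ = m.totient ^ 2 := by ring
    have hRestcard : Q.card - m.totient * R - m.totient ^ 2 ≤ Rest.card := by
      have h1 : (Q.filter (fun q => cl m q ∈ Rc)).card + (Q.filter (fun q => cl m q ∉ Rc)).card = Q.card :=
        card_filter_add_card_filter_not _
      have h2 : (Q.filter (fun q => cl m q ∈ Rc)).card ≤ Rest.card + Res.card := by
        have h3 : Q.filter (fun q => cl m q ∈ Rc) ⊆ Rest ∪ Res := by
          intro q hq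
          rw [mem_union, hRest, mem_sdiff]
          by_cases h : q ∈ Res
          · exact Or.inr h
          · exact Or.inl ⟨hq, h⟩
        exact (card_le_card h3).trans (card_union_le _ _)
      omega
    -- completion from the reserve
    have hcomp : ∀ k ∈ K, ∃ T ⊆ Res, ∏ q ∈ T, cl m q = k := by
      intro k hk
      obtain ⟨e, he1, he2⟩ := gen Rc k hk
      have hT : ∀ g : (ZMod m)ˣ, ∃ T : Finset ℕ, g ∈ Rc → T ⊆ P g ∧ T.card = e g := by
        intro g
        by_cases hg : g ∈ Rc
        · have h1 : e g ≤ (P g).card := by rw [(hP g hg).2, ← hcard]; exact he1 g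
          obtain ⟨T, hT1, hT2⟩ := exists_subset_card_eq h1
          exact ⟨T, fun _ => ⟨hT1, hT2⟩⟩
        · exact ⟨∅, fun h => absurd h hg⟩
      choose T hT using hT
      refine ⟨Rc.biUnion T, ?_, ?_⟩
      · intro q hq
        rw [mem_biUnion] at hq
        obtain ⟨g, hg, hq⟩ := hq
        rw [hRes, mem_biUnion]
        exact ⟨g, hg, (hT g hg).1 hq⟩
      · rw [prod_biUnion]
        · rw [← he2]
          apply prod_congr rfl
          intro g hg
          have h1 : ∀ q ∈ T g, cl m q = g := fun q hq => (mem_filter.mp ((hP g hg).1 ((hT g hg).1 hq))).2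
          rw [prod_congr rfl h1, prod_const, (hT g hg).2]
        · intro g hg g' hg' hne
          rw [Function.onFun, disjoint_left]
          intro q hq hq'
          have h1 := (mem_filter.mp ((hP g hg).1 ((hT g hg).1 hq))).2
          have h2 := (mem_filter.mp ((hP g' hg').1 ((hT g' hg').1 hq'))).2
          exact hne (h1.symm.trans h2)
    have hSmem : ∀ S ⊆ Rest, ∏ q ∈ S, cl m q ∈ K := by
      intro S hS
      apply Subgroup.prod_mem
      intro q hq
      apply Subgroup.subset_closure
      exact (mem_filter.mp (mem_sdiff.mp (hS hq)).1).2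
    have hch : ∀ S : Finset ℕ, ∃ T : Finset ℕ, S ⊆ Rest → T ⊆ Res ∧ (∏ q ∈ S, cl m q) * ∏ q ∈ T, cl m q = a := by
      intro S
      by_cases hS : S ⊆ Rest
      · obtain ⟨T, hT1, hT2⟩ := hcomp ((∏ q ∈ S, cl m q)⁻¹ * a) (K.mul_mem (K.inv_mem (hSmem S hS)) haK)
        exact ⟨T, fun _ => ⟨hT1, by rw [hT2, mul_inv_cancel_left]⟩⟩
      · exact ⟨∅, fun h => absurd h hS⟩
    choose T hT using hch
    calc 2 ^ (Q.card - m.totient * R - m.totient ^ 2) ≤ 2 ^ Rest.card :=
          Nat.pow_le_pow_right (by norm_num) hRestcard
      _ = Rest.powerset.card := (card_powerset _).symm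
      _ ≤ _ := by
          apply card_le_card_of_injOn (fun S => ∏ q ∈ S ∪ T S, q)
          · intro S hS
            have hS1 : S ⊆ Rest := mem_powerset.mp hS
            have hsub : S ∪ T S ⊆ Q := union_subset (hS1.trans hRestQ) ((hT S hS1).1.trans hResQ)
            rw [mem_coe, mem_filter, Nat.mem_divisors]
            refine ⟨⟨prod_dvd_prod_of_subset _ _ _ hsub, ?_⟩, ?_⟩
            · exact prod_ne_zero_iff.mpr (fun q hq => (hQ q hq).1.ne_zero)
            · have hd : Disjoint S (T S) := hdisj.mono hS1 (hT S hS1).1
              have h1 : ((∏ q ∈ S ∪ T S, q : ℕ) : ZMod m) = ((a : (ZMod m)ˣ) : ZMod m) := by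
                rw [← (hT S hS1).2, ← prod_union hd, Units.coe_prod, Nat.cast_prod]
                exact prod_congr rfl (fun q hq => (cl_val (hQ q (hsub hq)).2).symm)
              rw [← ZMod.natCast_eq_zero_iff]
              push_cast
              rw [← Nat.cast_prod, h1, ← cl_val hs, ha]
              simp
          · intro S hS S' hS' heq
            have hS1 : S ⊆ Rest := mem_powerset.mp hS
            have hS1' : S' ⊆ Rest := mem_powerset.mp hS'
            simp only at heq
            have hp : ∀ X : Finset ℕ, X ⊆ Rest → (∏ q ∈ X ∪ T X, q).primeFactors = X ∪ T X := by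
              intro X hX
              apply Nat.primeFactors_prod
              intro q hq
              exact (hQ q (union_subset (hX.trans hRestQ) ((hT X hX).1.trans hResQ) hq)).1
            have h2 : S ∪ T S = S' ∪ T S' := by rw [← hp S hS1, ← hp S' hS1', heq]
            ext q
            constructor
            · intro hq
              have h3 : q ∈ S' ∪ T S' := h2 ▸ mem_union_left _ hq
              rcases mem_union.mp h3 with h | h
              · exact h
              · exact absurd ((hT S' hS1').1 h) (disjoint_left.mp hdisj (hS1 hq))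
            · intro hq
              have h3 : q ∈ S ∪ T S := h2 ▸ mem_union_left _ hq
              rcases mem_union.mp h3 with h | h
              · exact h
              · exact absurd ((hT S hS1).1 h) (disjoint_left.mp hdisj (hS1' hq))
  · left
    set U : Finset ℕ := ((Finset.range m).filter (fun r => r.Coprime m)).filter (fun r => cl m r ∉ K) with hU
    refine ⟨U, filter_subset _ _, ?_, ?_⟩
    · -- at least half
      have h1 : (univ.filter (fun g : (ZMod m)ˣ => g ∉ K)).card ≤ U.card := by
        apply card_le_card_of_injOn (fun g : (ZMod m)ˣ => (g : ZMod m).val)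
        · intro g hg
          have hg1 := (mem_filter.mp hg).2
          have h2 : ((g : ZMod m).val).Coprime m := ZMod.val_coe_unit_coprime g
          rw [mem_coe, hU, mem_filter, mem_filter, mem_range]
          refine ⟨⟨ZMod.val_lt _, h2⟩, ?_⟩
          have h3 : cl m (g : ZMod m).val = g := by
            apply Units.ext
            rw [cl_val h2, ZMod.natCast_zmod_val]
          rw [h3]
          exact hg1
        · intro g _ g' _ h
          exact Units.ext (ZMod.val_injective m h)
      have h2 : (univ.filter (fun g : (ZMod m)ˣ => g ∈ K)).card + (univ.filter (fun g : (ZMod m)ˣ => g ∉ K)).card =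
          m.totient := by
        rw [← hcard, card_filter_add_card_filter_not]
        rfl
      have h3 : 2 * (univ.filter (fun g : (ZMod m)ˣ => g ∈ K)).card ≤ m.totient := by
        have h4 : Nat.card K = (univ.filter (fun g : (ZMod m)ˣ => g ∈ K)).card := by
          rw [Nat.card_eq_fintype_card, Fintype.card_subtype]
        have h5 : K.index * Nat.card K = Nat.card (ZMod m)ˣ := K.index_mul_card
        have h6 : K ≠ ⊤ := by
          intro h
          exact haK (h ▸ Subgroup.mem_top a)
        have h7 : 1 < K.index := Subgroup.one_lt_index_of_ne_top h6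
        have h8 : Nat.card (ZMod m)ˣ = m.totient := by rw [Nat.card_eq_fintype_card, hcard]
        rw [h8] at h5
        rw [← h4, ← h5]
        exact Nat.mul_le_mul_right _ h7
      omega
    · refine le_trans (card_le_card ?_) hpoor
      intro q hq
      rw [mem_filter] at hq
      rw [mem_filter]
      refine ⟨hq.1, ?_⟩
      have h1 := (mem_filter.mp hq.2).2
      have h2 : cl m (q % m) = cl m q := by
        have h3 := (mem_filter.mp (mem_filter.mp hq.2).1).2
        apply Units.ext
        rw [cl_val h3, cl_val (hQ q hq.1).2, ZMod.natCast_mod]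
      rw [h2] at h1
      intro h4
      exact h1 (Subgroup.subset_closure (by exact_mod_cast h4))

theorem blk5 : Blk5 := fun m s R Q hm hs hQ hR => blk m s R Q hm hs hQ hR

end Pool.Agent.BR5.Blk89
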