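import Pool.Agent.BR4.Stmts

/-!
# MP_5de915_nt: exceptional set with a uniform exponent, interface statements
-/

set_option autoImplicit false

namespace Pool.Agent.BR5

open Pool.Agent.Helper64.Breadth Pool.Agent.BR4

/-- the primes `q ≤ x` dividing `n + 2 b` with class modulo `4 b - 1` in `V` -/
def HV (V : Finset (ℕ × ℕ)) (b n x : ℕ) : Finset ℕ :=
  (Finset.Icc 1 x).filter (fun q => q.Prime ∧ (b, q % (4 * b - 1)) ∈ V ∧ q ∣ n + 2 * b)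

/-- `V` contains at least half of the unit classes modulo `4 b - 1` -/
def Good (V : Finset (ℕ × ℕ)) (b : ℕ) : Prop :=
  (4 * b - 1).totient ≤ 2 * ((Finset.range (4 * b - 1)).filter (fun r => r.Coprime (4 * b - 1) ∧ (b, r) ∈ V)).card

/-- row REC5 -/
def Rec5 : Prop := ∀ (V : Finset (ℕ × ℕ)) (b : ℕ), 1 ≤ b → Good V b → ∃ C : ℝ, ∀ z : ℕ, 3 ≤ z →
  Real.log (Real.log z) / 8 - C ≤
    ∑ q ∈ (Finset.Icc 1 z).filter (fun q => q.Prime ∧ (b, q % (4 * b - 1)) ∈ V), (1 : ℝ) / q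

/-- row SV5: the sieve; `M = 64 A` for `s = 1`, `M = 128 A` for `s = 2` (so `TT s β M` has `64 A` elements) -/
def Sv5 : Prop := ∀ A s β : ℕ, (s = 1 ∨ s = 2) → (β = 0 ∨ β = 1) → ∃ M : ℕ, ∀ V : Finset (ℕ × ℕ),
  (∀ b ∈ TT s β M, Good V b) → ∃ B : ℝ, ∀ x : ℕ, 2 ≤ x →
  (((Finset.Icc 1 x).filter (fun n => ∀ b ∈ TT s β M,
    ((HV V b n x).card : ℝ) < Real.log (Real.log x) / 128)).card : ℝ) ≤ B * x / Real.log x ^ A

def SvRow5 : Prop := Rec5 → Pool.Agent.SPM.R2b → Sv5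

/-- row BLK5: rich and poor classes -/
def Blk5 : Prop := ∀ (m s R : ℕ) (Q : Finset ℕ), 1 ≤ m → s.Coprime m → (∀ q ∈ Q, q.Prime ∧ q.Coprime m) → m ≤ R →
  (∃ U : Finset ℕ, U ⊆ (Finset.range m).filter (fun r => r.Coprime m) ∧ m.totient ≤ 2 * U.card ∧
    (Q.filter (fun q => q % m ∈ U)).card ≤ m.totient * R) ∨
  2 ^ (Q.card - m.totient * R - m.totient ^ 2) ≤ ((∏ q ∈ Q, q).divisors.filter (fun D => m ∣ s * D + 1)).card

/-- the main theorem -/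
def Main5 : Prop := ∃ d : ℝ, 0 < d ∧ ∀ A : ℕ, ∃ B : ℝ, ∀ x : ℕ, 2 ≤ x →
  (((Finset.Icc 1 x).filter (fun n => (c n : ℝ) < Real.log x ^ d)).card : ℝ) ≤ B * x / Real.log x ^ A

/-- row ASM5 -/
def Asm5 : Prop := Sv5 → Blk5 → Sol → Main5

end Pool.Agent.BR5
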