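import Pool.Agent.SPM.RecAP92
import Pool.Agent.BR5.Stmts

/-! Row REC5 (helper64): reciprocals of the primes in at least half of the unit classes. -/

set_option autoImplicit false

namespace Pool.Agent.BR5.Rec64

open Finset

theorem rec64 : Rec5 := by
  classical
  intro V b hb hG
  unfold Good at hG
  set m := 4 * b - 1 with hm
  have hne : NeZero m := ⟨by omega⟩
  set U := (range m).filter (fun r => r.Coprime m ∧ (b, r) ∈ V) with hU
  have h0 : ∀ r : ℕ, ∃ C : ℝ, r ∈ U → ∀ z : ℕ, 3 ≤ z →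
      1 / (4 * (m.totient : ℝ)) * Real.log (Real.log z) - C ≤
        ∑ q ∈ (Icc 1 z).filter (fun q : ℕ => q.Prime ∧ (q : ZMod m) = (r : ZMod m)), (1 : ℝ) / q := by
    intro r
    by_cases hr : r ∈ U
    · rw [hU, mem_filter] at hr
      have hu : IsUnit (r : ZMod m) := (ZMod.isUnit_iff_coprime r m).2 hr.2.1
      obtain ⟨C, hC⟩ := Pool.Agent.SPM.recAP m hu
      refine ⟨C, fun _ z hz => ?_⟩
      have h1 := hC (z : ℝ) (by exact_mod_cast hz)
      rw [Nat.floor_natCast] at h1
      exact h1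
    · exact ⟨0, fun h => absurd h hr⟩
  choose C hC using h0
  refine ⟨∑ r ∈ U, C r, fun z hz => ?_⟩
  have hmod : ∀ q r : ℕ, r ∈ U → ((q : ZMod m) = (r : ZMod m) ↔ q % m = r) := by
    intro q r hr
    rw [hU, mem_filter, mem_range] at hr
    rw [ZMod.natCast_eq_natCast_iff', Nat.mod_eq_of_lt hr.1]
  have h1 : ∑ r ∈ U, ∑ q ∈ (Icc 1 z).filter (fun q : ℕ => q.Prime ∧ (q : ZMod m) = (r : ZMod m)), (1 : ℝ) / q ≤
      ∑ q ∈ (Icc 1 z).filter (fun q => q.Prime ∧ (b, q % m) ∈ V), (1 : ℝ) / q := by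
    rw [← sum_biUnion]
    · apply sum_le_sum_of_subset_of_nonneg
      · intro q hq
        obtain ⟨r, hr, h2⟩ := mem_biUnion.1 hq
        rw [mem_filter] at h2 ⊢
        have h3 := (hmod q r hr).1 h2.2.2
        rw [hU, mem_filter] at hr
        exact ⟨h2.1, h2.2.1, by rw [h3]; exact hr.2.2⟩
      · intro q _ _
        positivity
    · intro r hr r' hr' hne'
      rw [Function.onFun, disjoint_left]
      intro q hq hq'
      rw [mem_filter] at hq hq'
      exact hne' (((hmod q r hr).1 hq.2.2).symm.trans ((hmod q r' hr').1 hq'.2.2))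
  refine le_trans ?_ h1
  have h2 : ∑ r ∈ U, (1 / (4 * (m.totient : ℝ)) * Real.log (Real.log z) - C r) ≤
      ∑ r ∈ U, ∑ q ∈ (Icc 1 z).filter (fun q : ℕ => q.Prime ∧ (q : ZMod m) = (r : ZMod m)), (1 : ℝ) / q :=
    sum_le_sum fun r hr => hC r hr z hz
  refine le_trans ?_ h2
  rw [sum_sub_distrib, sum_const, nsmul_eq_mul]
  have hφ : 0 < m.totient := Nat.totient_pos.2 (by omega)
  have hφ' : (0 : ℝ) < m.totient := by exact_mod_cast hφ
  have hG' : (m.totient : ℝ) ≤ 2 * U.card := by exact_mod_cast hG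
  have hlog3 : 1 ≤ Real.log z := by
    rw [Real.le_log_iff_exp_le (by positivity)]
    have h3 := Real.exp_one_lt_d9
    have h4 : (3 : ℝ) ≤ z := by exact_mod_cast hz
    linarith
  have hll : 0 ≤ Real.log (Real.log z) := Real.log_nonneg hlog3
  have h3 : Real.log (Real.log z) / 8 ≤ (U.card : ℝ) * (1 / (4 * (m.totient : ℝ)) * Real.log (Real.log z)) := by
    have h4 : (1 : ℝ) / 8 ≤ (U.card : ℝ) * (1 / (4 * (m.totient : ℝ))) := by
      rw [mul_one_div, div_le_div_iff₀ (by norm_num) (by positivity)]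
      linarith
    calc Real.log (Real.log z) / 8 = 1 / 8 * Real.log (Real.log z) := by ring
      _ ≤ ((U.card : ℝ) * (1 / (4 * (m.totient : ℝ)))) * Real.log (Real.log z) :=
        mul_le_mul_of_nonneg_right h4 hll
      _ = _ := by ring
  linarith

end Pool.Agent.BR5.Rec64
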