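import Pool.Agent.BR5.Asm77
import Pool.Agent.BR5.Sv64
import Pool.Agent.BR5.Rec64
import Pool.Agent.BR5.Blk64
import Pool.Agent.BR4.Sol46
import Pool.Agent.SPM.Brun2b34

/-! Composition for the uniform exponent `1 / 512` (helper64; the assembly is helper77's). -/

set_option autoImplicit false

namespace Pool.Agent.BR5.Fin64

open Finset Pool.Agent.Helper64.Breadth Pool.Agent.BR4 Pool.Agent.BR5.Asm77

/-- the assembly with the exponent written out -/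
theorem explicit (h1 : Sv5) (h2 : Blk5) (h3 : Sol) : ∀ A : ℕ, ∃ B : ℝ, ∀ x : ℕ, 2 ≤ x →
    (((Icc 1 x).filter (fun n => (c n : ℝ) < Real.log x ^ ((1 : ℝ) / 512))).card : ℝ) ≤
      B * x / Real.log x ^ A := by
  intro A
  obtain ⟨B1, H1⟩ := one (s := 1) (β := 0) h1 h2 h3 (Or.inl rfl) (Or.inl rfl) A
  obtain ⟨B2, H2⟩ := one (s := 2) (β := 1) h1 h2 h3 (Or.inr rfl) (Or.inr rfl) A
  obtain ⟨B3, H3⟩ := one (s := 2) (β := 0) h1 h2 h3 (Or.inr rfl) (Or.inl rfl) A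
  refine ⟨B1 + B2 + B3, fun x hx => ?_⟩
  classical
  have hsub : (Icc 1 x).filter (fun n => (c n : ℝ) < Real.log x ^ ((1 : ℝ) / 512)) ⊆
      (FF 1 0 x ∪ FF 2 1 x) ∪ FF 2 0 x := by
    intro n hn
    rw [Finset.mem_filter] at hn
    obtain ⟨hn1, hn2⟩ := hn
    rw [Finset.mem_union, Finset.mem_union, mem_FF, mem_FF, mem_FF]
    have h4 : n % 4 = 0 ∨ n % 4 = 2 ∨ n % 2 = 1 := by omega
    rcases h4 with h4 | h4 | h4
    · exact Or.inl (Or.inr ⟨hn1, Or.inr (Or.inl ⟨rfl, rfl, h4⟩), hn2⟩)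
    · exact Or.inr ⟨hn1, Or.inr (Or.inr ⟨rfl, rfl, h4⟩), hn2⟩
    · exact Or.inl (Or.inl ⟨hn1, Or.inl ⟨rfl, h4⟩, hn2⟩)
  have hcard := (Finset.card_le_card hsub).trans ((Finset.card_union_le _ _).trans
    (Nat.add_le_add_right (Finset.card_union_le _ _) _))
  have k1 := H1 x hx
  have k2 := H2 x hx
  have k3 := H3 x hx
  have hcard' : (((Icc 1 x).filter (fun n => (c n : ℝ) < Real.log x ^ ((1 : ℝ) / 512))).card : ℝ) ≤
      ((FF 1 0 x).card : ℝ) + ((FF 2 1 x).card : ℝ) + ((FF 2 0 x).card : ℝ) := by exact_mod_cast hcard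
  have k5 : (B1 + B2 + B3) * x / Real.log x ^ A = B1 * x / Real.log x ^ A + B2 * x / Real.log x ^ A +
      B3 * x / Real.log x ^ A := by ring
  rw [k5]
  refine le_trans ?_ (add_le_add (add_le_add k1 k2) k3)
  exact hcard'

theorem fin64 : ∀ A : ℕ, ∃ B : ℝ, ∀ x : ℕ, 2 ≤ x →
    (((Icc 1 x).filter (fun n => (c n : ℝ) < Real.log x ^ ((1 : ℝ) / 512))).card : ℝ) ≤
      B * x / Real.log x ^ A :=
  explicit (Sv64.sv64 Rec64.rec64 Pool.Agent.SPM.B34.r2b_34) Blk64.blk64 Pool.Agent.BR4.Sol46.sol46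

end Pool.Agent.BR5.Fin64
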