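import Pool.Agent.SPM.RecAP92
import Pool.Agent.BR5.Stmts

/-!
# Row REC5: reciprocals of the primes in at least half of the unit classes
-/

set_option autoImplicit false

namespace Pool.Agent.BR5.Rec77

open Finset

theorem one {m r : ℕ} (hm : 1 ≤ m) (hr : r < m) (hc : r.Coprime m) : ∃ C : ℝ, ∀ z : ℕ, 3 ≤ z →
    Real.log (Real.log z) / (4 * m.totient) - C ≤
      ∑ q ∈ (Icc 1 z).filter (fun q => q.Prime ∧ q % m = r), (1 : ℝ) / q := by
  have hne : NeZero m := ⟨by omega⟩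
  have hu : IsUnit (r : ZMod m) := (ZMod.isUnit_iff_coprime r m).2 hc
  obtain ⟨C, hC⟩ := Pool.Agent.SPM.recAP m hu
  refine ⟨C, fun z hz => ?_⟩
  have h1 := hC (z : ℝ) (by exact_mod_cast hz)
  rw [Nat.floor_natCast] at h1
  have h2 : (Icc 1 z).filter (fun p : ℕ => p.Prime ∧ (p : ZMod m) = (r : ZMod m)) =
      (Icc 1 z).filter (fun q : ℕ => q.Prime ∧ q % m = r) := by
    apply filter_congr
    intro p _
    rw [ZMod.natCast_eq_natCast_iff', Nat.mod_eq_of_lt hr]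
  rw [h2] at h1
  refine le_trans (le_of_eq ?_) h1
  ring

theorem rec77 : Rec5 := by
  intro V b hb hG
  obtain ⟨m, hm⟩ : ∃ m, m = 4 * b - 1 := ⟨_, rfl⟩
  unfold Good at hG
  rw [← hm] at hG ⊢
  have hm1 : 1 ≤ m := by omega
  set S := (range m).filter (fun r => r.Coprime m ∧ (b, r) ∈ V) with hS
  have hex : ∀ r : ℕ, ∃ C : ℝ, r ∈ S → ∀ z : ℕ, 3 ≤ z → Real.log (Real.log z) / (4 * m.totient) - C ≤
      ∑ q ∈ (Icc 1 z).filter (fun q => q.Prime ∧ q % m = r), (1 : ℝ) / q := by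
    intro r
    by_cases hr : r ∈ S
    · have hr' := hr
      rw [hS, mem_filter, mem_range] at hr'
      obtain ⟨C, hC⟩ := one hm1 hr'.1 hr'.2.1
      exact ⟨C, fun _ => hC⟩
    · exact ⟨0, fun h => absurd h hr⟩
  choose C hC using hex
  refine ⟨∑ r ∈ S, C r, fun z hz => ?_⟩
  have h1 : ∑ r ∈ S, (Real.log (Real.log z) / (4 * m.totient) - C r) ≤
      ∑ r ∈ S, ∑ q ∈ (Icc 1 z).filter (fun q => q.Prime ∧ q % m = r), (1 : ℝ) / q :=
    Finset.sum_le_sum (fun r hr => hC r hr z hz)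
  have h2 : ∑ r ∈ S, ∑ q ∈ (Icc 1 z).filter (fun q => q.Prime ∧ q % m = r), (1 : ℝ) / q =
      ∑ q ∈ (Icc 1 z).filter (fun q => q.Prime ∧ q % m ∈ S), (1 : ℝ) / q := by
    have h0 := Finset.sum_fiberwise_of_maps_to (s := (Icc 1 z).filter (fun q => q.Prime ∧ q % m ∈ S)) (t := S)
      (g := fun q => q % m) (fun q hq => (mem_filter.1 hq).2.2) (fun q => (1 : ℝ) / q)
    rw [← h0]
    refine Finset.sum_congr rfl fun r hr => Finset.sum_congr ?_ fun _ _ => rfl
    ext q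
    simp only [mem_filter]
    constructor
    · rintro ⟨h3, h4, h5⟩
      exact ⟨⟨h3, h4, by rw [h5]; exact hr⟩, h5⟩
    · rintro ⟨⟨h3, h4, -⟩, h5⟩
      exact ⟨h3, h4, h5⟩
  have h3 : ∑ q ∈ (Icc 1 z).filter (fun q => q.Prime ∧ q % m ∈ S), (1 : ℝ) / q ≤
      ∑ q ∈ (Icc 1 z).filter (fun q => q.Prime ∧ (b, q % m) ∈ V), (1 : ℝ) / q := by
    refine Finset.sum_le_sum_of_subset_of_nonneg ?_ fun _ _ _ => by positivity
    intro q hq
    rw [mem_filter, hS, mem_filter] at hq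
    rw [mem_filter]
    exact ⟨hq.1, hq.2.1, hq.2.2.2.2⟩
  rw [h2, Finset.sum_sub_distrib, Finset.sum_const, nsmul_eq_mul] at h1
  have hφ : 0 < m.totient := Nat.totient_pos.2 (by omega)
  have hφr : (0 : ℝ) < m.totient := by exact_mod_cast hφ
  have hz3 : (3 : ℝ) ≤ z := by exact_mod_cast hz
  have hlog : 1 ≤ Real.log z := by
    rw [Real.le_log_iff_exp_le (by linarith)]
    have := Real.exp_one_lt_d9
    linarith
  have hll : 0 ≤ Real.log (Real.log z) := Real.log_nonneg hlog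
  have hG' : (m.totient : ℝ) ≤ 2 * S.card := by exact_mod_cast hG
  have h4 : Real.log (Real.log z) / 8 ≤ S.card * (Real.log (Real.log z) / (4 * m.totient)) := by
    rw [← mul_div_assoc, div_le_div_iff₀ (by norm_num) (by positivity)]
    nlinarith
  linarith

end Pool.Agent.BR5.Rec77
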