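import Pool.Agent.BR5.Stmts
import Pool.Agent.BR4.Sv34

/-!
# MP_5de915_nt: row SV5, the sieve with classes in `V` (uniform exponent)
-/

set_option autoImplicit false

namespace Pool.Agent.BR5.Sv534

open Finset Pool.Agent.SPM Pool.Agent.BR4 Pool.Agent.BR5

/-- the classes of the hits -/
def Fv (V : Finset (ℕ × ℕ)) (T : Finset ℕ) (q : ℕ) : Finset ℕ :=
  (T.filter (fun b => (b, q % (4 * b - 1)) ∈ V)).image fun b : ℕ => (-((2 * b : ℕ) : ZMod q)).val

theorem Fv_lt {V : Finset (ℕ × ℕ)} {T : Finset ℕ} {q : ℕ} (hq : q.Prime) : ∀ r ∈ Fv V T q, r < q := by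
  have := Fact.mk hq
  intro r hr
  obtain ⟨m, -, rfl⟩ := mem_image.1 hr
  exact ZMod.val_lt _

theorem Fv_card {V : Finset (ℕ × ℕ)} {T : Finset ℕ} {M q : ℕ} (hM2 : 2 ≤ M) (hT : T ⊆ Icc 1 M) (hq : q.Prime)
    (hM : M ^ 2 < q) :
    (Fv V T q).card = (T.filter (fun b => (b, q % (4 * b - 1)) ∈ V)).card := by
  have := Fact.mk hq
  apply card_image_of_injOn
  intro m hm m' hm' he
  have h1 := mem_Icc.1 (hT (mem_filter.1 hm).1)
  have h1' := mem_Icc.1 (hT (mem_filter.1 hm').1)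
  have h3 := ZMod.val_injective q he
  have h6 : ((2 * m : ℕ) : ZMod q) = ((2 * m' : ℕ) : ZMod q) := neg_injective h3
  have h7 : 2 * m < q := by nlinarith
  have h8 : 2 * m' < q := by nlinarith
  rw [ZMod.natCast_eq_natCast_iff'] at h6
  rw [Nat.mod_eq_of_lt h7, Nat.mod_eq_of_lt h8] at h6
  omega

theorem of_mem_Fv {V : Finset (ℕ × ℕ)} {T : Finset ℕ} {q n : ℕ} (hq : q.Prime)
    (h : n % q ∈ Fv V T q) : ∃ b ∈ T, (b, q % (4 * b - 1)) ∈ V ∧ q ∣ n + 2 * b := by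
  have := Fact.mk hq
  obtain ⟨m, hm, he⟩ := mem_image.1 h
  have h0 := mem_filter.1 hm
  refine ⟨m, h0.1, h0.2, ?_⟩
  have h3 : (n : ZMod q) = -((2 * m : ℕ) : ZMod q) := by
    have h4 : ((n % q : ℕ) : ZMod q) = (n : ZMod q) := ZMod.natCast_mod n q
    rw [← h4, ← he, ZMod.natCast_zmod_val]
  rw [← ZMod.natCast_eq_zero_iff, Nat.cast_add, h3]
  ring

theorem Fv_le {V : Finset (ℕ × ℕ)} {T : Finset ℕ} {M : ℕ} (hT : T ⊆ Icc 1 M) (q : ℕ) : (Fv V T q).card ≤ M := by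
  refine card_image_le.trans ((card_le_card (filter_subset (fun b => (b, q % (4 * b - 1)) ∈ V) T)).trans ?_)
  have := card_le_card hT
  rw [Nat.card_Icc] at this
  omega

theorem Ev_le {V : Finset (ℕ × ℕ)} {T : Finset ℕ} {M z : ℕ} (hT : T ⊆ Icc 1 M) :
    ∑ q ∈ Pz M z, ((Fv V T q).card : ℝ) / q ≤ M * (1 + Real.log z) := by
  have h1 : ∑ q ∈ Pz M z, ((Fv V T q).card : ℝ) / q ≤ ∑ q ∈ Icc 1 z, (M : ℝ) * (1 / q) := by
    refine le_trans (sum_le_sum (f := fun q => ((Fv V T q).card : ℝ) / q) (g := fun q => (M : ℝ) * (1 / q)) ?_)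
      (sum_le_sum_of_subset_of_nonneg (filter_subset _ _) fun q _ _ => by positivity)
    intro q _
    rw [mul_one_div]
    gcongr
    exact_mod_cast Fv_le hT q
  rw [← mul_sum, sum_inv_Icc] at h1
  refine h1.trans ?_
  gcongr
  exact_mod_cast harmonic_le_one_add_log z

theorem Sv_le {V : Finset (ℕ × ℕ)} {T : Finset ℕ} {M z : ℕ} (hT : T ⊆ Icc 1 M) :
    ∑ q ∈ Pz M z, ((Fv V T q).card : ℝ) ≤ M * z := by
  calc ∑ q ∈ Pz M z, ((Fv V T q).card : ℝ) ≤ ∑ _q ∈ Pz M z, (M : ℝ) := by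
        apply sum_le_sum
        intro q _
        exact_mod_cast Fv_le hT q
    _ = (Pz M z).card * (M : ℝ) := by simp
    _ ≤ z * M := by
        gcongr
        have h1 := card_le_card (filter_subset (fun q => q.Prime ∧ M ^ 2 < q) (Icc 1 z))
        rw [Nat.card_Icc] at h1
        unfold Pz
        omega
    _ = M * z := by ring

/-- the lower bound of the sum -/
theorem Ev_ge {V : Finset (ℕ × ℕ)} {M : ℕ} (hM2 : 2 ≤ M) {T : Finset ℕ} (hT : T ⊆ Icc 1 M) (c : ℕ → ℝ)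
    (hc : ∀ b ∈ T, ∀ z : ℕ, 3 ≤ z → Real.log (Real.log z) / 8 - c b ≤
      ∑ q ∈ (Icc 1 z).filter (fun q => q.Prime ∧ (b, q % (4 * b - 1)) ∈ V), (1 : ℝ) / q)
    {z : ℕ} (hz : 3 ≤ z) :
    (T.card : ℝ) * (Real.log (Real.log z) / 8) - ∑ b ∈ T, (|c b| + (M : ℝ) ^ 2) ≤
      ∑ q ∈ Pz M z, ((Fv V T q).card : ℝ) / q := by
  have h1 : ∑ q ∈ Pz M z, ((Fv V T q).card : ℝ) / q =
      ∑ b ∈ T, ∑ q ∈ (Pz M z).filter (fun q => (b, q % (4 * b - 1)) ∈ V), (1 : ℝ) / q := by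
    have h2 : ∀ q ∈ Pz M z, ((Fv V T q).card : ℝ) / q =
        ∑ b ∈ T, if (b, q % (4 * b - 1)) ∈ V then (1 : ℝ) / q else 0 := by
      intro q hq
      obtain ⟨h3, h4, -⟩ := mem_Pz.1 hq
      rw [Fv_card hM2 hT h3 h4, ← sum_filter, sum_const, nsmul_eq_mul, mul_one_div]
    rw [sum_congr rfl h2, sum_comm]
    apply sum_congr rfl
    intro m _
    rw [sum_filter]
  have h2 : ∀ b ∈ T, Real.log (Real.log z) / 8 - (|c b| + (M : ℝ) ^ 2) ≤
      ∑ q ∈ (Pz M z).filter (fun q => (b, q % (4 * b - 1)) ∈ V), (1 : ℝ) / q := by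
    intro m hm
    have h4 := hc m hm z hz
    have h5 : ∑ q ∈ (Icc 1 z).filter (fun q => q.Prime ∧ (m, q % (4 * m - 1)) ∈ V), (1 : ℝ) / q ≤
        ∑ q ∈ (Pz M z).filter (fun q => (m, q % (4 * m - 1)) ∈ V), (1 : ℝ) / q +
          ∑ q ∈ Icc 1 (M ^ 2), (1 : ℝ) / q := by
      rw [← sum_filter_add_sum_filter_not ((Icc 1 z).filter (fun q => q.Prime ∧ (m, q % (4 * m - 1)) ∈ V))
        (fun q => M ^ 2 < q)]
      apply add_le_add
      · apply sum_le_sum_of_subset_of_nonneg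
        · intro q hq
          rw [mem_filter, mem_filter, mem_Icc] at hq
          rw [mem_filter, mem_Pz]
          exact ⟨⟨hq.1.2.1, hq.2, hq.1.1.2⟩, hq.1.2.2⟩
        · intro q _ _
          positivity
      · apply sum_le_sum_of_subset_of_nonneg
        · intro q hq
          rw [mem_filter, mem_filter, mem_Icc] at hq
          rw [mem_Icc]
          exact ⟨hq.1.1.1, not_lt.1 hq.2⟩
        · intro q _ _
          positivity
    have h6 : ∑ q ∈ Icc 1 (M ^ 2), (1 : ℝ) / q ≤ (M : ℝ) ^ 2 := by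
      calc ∑ q ∈ Icc 1 (M ^ 2), (1 : ℝ) / q ≤ ∑ _q ∈ Icc 1 (M ^ 2), (1 : ℝ) := by
            apply sum_le_sum
            intro q hq
            have h7 := (mem_Icc.1 hq).1
            rw [div_le_one (by positivity)]
            exact_mod_cast h7
        _ = (M : ℝ) ^ 2 := by simp
    have h7 := le_abs_self (c m)
    linarith
  rw [h1]
  have h3 := sum_le_sum h2
  rw [sum_sub_distrib, sum_const, nsmul_eq_mul] at h3
  exact h3

/-- the number of admissible `b` -/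
theorem cardTT (s β a : ℕ) (hs : s = 1 ∨ s = 2) (hβ : β = 0 ∨ β = 1) :
    (TT s β (if s = 1 then 64 * a else 128 * a)).card = 64 * a := by
  rcases hs with rfl | rfl
  · rw [if_pos rfl, TT, filter_true_of_mem (fun b _ => Or.inl rfl), Nat.card_Icc]
    omega
  · rw [if_neg (by norm_num)]
    have h1 : TT 2 β (128 * a) = (Icc 1 (64 * a)).image (fun j => 2 * j - β) := by
      ext b
      rw [TT, mem_filter, mem_Icc, mem_image]
      constructor
      · rintro ⟨⟨h1, h2⟩, h3 | h3⟩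
        · omega
        · refine ⟨(b + β) / 2, ?_, ?_⟩
          · rw [mem_Icc]
            rcases hβ with rfl | rfl <;> omega
          · rcases hβ with rfl | rfl <;> omega
      · rintro ⟨j, hj, rfl⟩
        rw [mem_Icc] at hj
        rcases hβ with rfl | rfl
        · exact ⟨by omega, Or.inr (by omega)⟩
        · exact ⟨by omega, Or.inr (by omega)⟩
    rw [h1, card_image_of_injOn, Nat.card_Icc]
    · omega
    · intro i hi j hj he
      have h5 := mem_Icc.1 (mem_coe.1 hi)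
      have h6 := mem_Icc.1 (mem_coe.1 hj)
      dsimp only at he
      rcases hβ with rfl | rfl <;> omega

/-- few hits for each `b`, so few exceptional primes -/
theorem few5 {V : Finset (ℕ × ℕ)} {s β M z n x : ℕ} {h : ℝ} (hz : z ≤ x)
    (hh : ∀ b ∈ TT s β M, ((HV V b n x).card : ℝ) < h) :
    (((Pz M z).filter (fun q => n % q ∈ Fv V (TT s β M) q)).card : ℝ) ≤ ((TT s β M).card : ℝ) * h := by
  classical
  have hsub : (Pz M z).filter (fun q => n % q ∈ Fv V (TT s β M) q) ⊆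
      (TT s β M).biUnion (fun b => HV V b n x) := by
    intro q hq
    rw [mem_filter] at hq
    obtain ⟨hq1, -, hq3⟩ := mem_Pz.1 hq.1
    obtain ⟨b, hb, h1, h2⟩ := of_mem_Fv hq1 hq.2
    rw [mem_biUnion]
    refine ⟨b, hb, ?_⟩
    unfold HV
    rw [mem_filter, mem_Icc]
    exact ⟨⟨hq1.one_le, hq3.trans hz⟩, hq1, h1, h2⟩
  have h1 := (card_le_card hsub).trans card_biUnion_le
  have h2 : (((Pz M z).filter (fun q => n % q ∈ Fv V (TT s β M) q)).card : ℝ) ≤
      ∑ b ∈ TT s β M, ((HV V b n x).card : ℝ) := by exact_mod_cast h1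
  refine h2.trans ?_
  rw [← nsmul_eq_mul, ← sum_const]
  exact sum_le_sum fun b hb => (hh b hb).le

/-- the powers -/
theorem powers5 {A J : ℕ} {d u Lx K : ℝ} (hd0 : 0 < d) (hu : 0 < u) (hL1 : 1 ≤ Lx) (hsq : u ^ 2 = Lx) (hK0 : 0 < K)
    (h6 : (6 : ℝ) ^ J ≤ Lx ^ (A + 1)) :
    (6 : ℝ) ^ J * (K * (2 / (d * u)) ^ (2 * (2 * (A + 1))) + Real.exp (-(d * u))) ≤
      (K * (2 / d) ^ (2 * (2 * (A + 1))) + (2 * (2 * (A + 1))).factorial / d ^ (2 * (2 * (A + 1)))) / Lx ^ A := by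
  have hL0 : 0 < Lx := by linarith
  have hdu : 0 < d * u := by positivity
  obtain ⟨N, hN⟩ : ∃ N : ℕ, N = 2 * (2 * (A + 1)) := ⟨_, rfl⟩
  have hu2 : u ^ N = Lx ^ (A + 1) * Lx ^ (A + 1) := by
    rw [hN, pow_mul, hsq, two_mul, pow_add]
  rw [← hN]
  obtain ⟨W, hW⟩ : ∃ W : ℝ, W = Lx ^ (A + 1) := ⟨_, rfl⟩
  rw [← hW] at hu2 h6
  have hW0 : 0 < W := by rw [hW]; positivity
  have e1 : (d * u) ^ N = d ^ N * (W * W) := by rw [mul_pow, hu2]
  have e2 : (2 / (d * u)) ^ N = (2 / d) ^ N / (W * W) := by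
    rw [← div_div, div_pow (2 / d) u, hu2]
  have e3 : Real.exp (-(d * u)) ≤ N.factorial / d ^ N / (W * W) := by
    have h7 := Real.pow_div_factorial_le_exp (d * u) hdu.le N
    rw [e1] at h7
    rw [Real.exp_neg, div_div, inv_le_comm₀ (Real.exp_pos _) (by positivity), inv_div]
    exact h7
  rw [e2]
  have e4 : K * ((2 / d) ^ N / (W * W)) + Real.exp (-(d * u)) ≤
      (K * (2 / d) ^ N + N.factorial / d ^ N) / (W * W) := by
    rw [add_div, mul_div_assoc]
    linarith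
  have hC : 0 ≤ K * (2 / d) ^ N + N.factorial / d ^ N := by positivity
  calc (6 : ℝ) ^ J * (K * ((2 / d) ^ N / (W * W)) + Real.exp (-(d * u)))
      ≤ W * ((K * (2 / d) ^ N + N.factorial / d ^ N) / (W * W)) :=
        mul_le_mul h6 e4 (by positivity) hW0.le
    _ = (K * (2 / d) ^ N + N.factorial / d ^ N) / W := by
        field_simp
    _ ≤ (K * (2 / d) ^ N + N.factorial / d ^ N) / Lx ^ A := by
        apply div_le_div_of_nonneg_left hC (by positivity)
        rw [hW, pow_succ]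
        exact le_mul_of_one_le_right (by positivity) hL1

/-- row SV5 -/
theorem sv534 : SvRow5 := by
  intro hrec h2 A s β hs hβ
  refine ⟨if s = 1 then 64 * (A + 1) else 128 * (A + 1), fun V hV => ?_⟩
  obtain ⟨M, hMdef⟩ : ∃ M : ℕ, M = if s = 1 then 64 * (A + 1) else 128 * (A + 1) := ⟨_, rfl⟩
  have hcard := cardTT s β (A + 1) hs hβ
  rw [← hMdef] at hV hcard ⊢
  have hMA : 64 * (A + 1) ≤ M := by
    rw [hMdef]
    split_ifs <;> omega
  have hM2 : 2 ≤ M := by omega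
  have hM1 : (2 : ℝ) ≤ M := by exact_mod_cast hM2
  have hMAr : ((A + 1 : ℕ) : ℝ) ≤ M := by exact_mod_cast (show A + 1 ≤ M by omega)
  have hTsub := Pool.Agent.BR4.Sv34.TT_sub s β M
  have hc0 : ∀ b : ℕ, ∃ c : ℝ, b ∈ TT s β M → ∀ z : ℕ, 3 ≤ z →
      Real.log (Real.log z) / 8 - c ≤
      ∑ q ∈ (Icc 1 z).filter (fun q => q.Prime ∧ (b, q % (4 * b - 1)) ∈ V), (1 : ℝ) / q := by
    intro b
    by_cases hb : b ∈ TT s β M
    · obtain ⟨c, hc⟩ := hrec V b (mem_Icc.1 (hTsub hb)).1 (hV b hb)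
      exact ⟨c, fun _ => hc⟩
    · exact ⟨0, fun h => absurd h hb⟩
  choose c hc using hc0
  obtain ⟨K', hK'⟩ : ∃ K' : ℝ, K' = ∑ b ∈ TT s β M, (|c b| + (M : ℝ) ^ 2) := ⟨_, rfl⟩
  obtain ⟨K, hK⟩ : ∃ K : ℝ, K = Real.exp (K' / 2) := ⟨_, rfl⟩
  have hK0 : 0 < K := by rw [hK]; exact Real.exp_pos _
  obtain ⟨d, hd⟩ : ∃ d : ℝ, d = 1 / (100 * (M + 1) ^ 2) := ⟨_, rfl⟩
  have hd0 : 0 < d := by rw [hd]; positivity
  have hd1 : d * (M * (M + 1)) ≤ 1 / 8 := by
    rw [hd, div_mul_eq_mul_div, div_le_div_iff₀ (by positivity) (by norm_num)]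
    nlinarith
  have hd2 : d ≤ 1 / 100 := by
    rw [hd]
    apply one_div_le_one_div_of_le (by norm_num)
    nlinarith
  obtain ⟨B1, hB1⟩ : ∃ B1 : ℝ, B1 = K * (2 / d) ^ (2 * (2 * (A + 1))) +
    (2 * (2 * (A + 1))).factorial / d ^ (2 * (2 * (A + 1))) := ⟨_, rfl⟩
  obtain ⟨B3, hB3⟩ : ∃ B3 : ℝ, B3 = 3 * (A.factorial * 2 ^ A) := ⟨_, rfl⟩
  obtain ⟨B4, hB4⟩ : ∃ B4 : ℝ, B4 = (2 / d) ^ (2 * A) := ⟨_, rfl⟩
  have p1 : 0 ≤ B1 := by rw [hB1]; positivity
  have p3 : 0 ≤ B3 := by rw [hB3]; positivity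
  have p4 : 0 ≤ B4 := by rw [hB4]; positivity
  refine ⟨B1 + B3 + B4, fun x hx => ?_⟩
  have hx0 : (0 : ℝ) < x := by exact_mod_cast (show 0 < x by omega)
  have hL : 0 < Real.log x := Real.log_pos (by exact_mod_cast (show 1 < x by omega))
  obtain ⟨Lx, hLx⟩ : ∃ Lx : ℝ, Lx = Real.log x := ⟨_, rfl⟩
  rw [← hLx] at hL ⊢
  have hLA : 0 < Lx ^ A := by positivity
  obtain ⟨u, hu⟩ : ∃ u : ℝ, u = Real.sqrt Lx := ⟨_, rfl⟩
  have hsq : u ^ 2 = Lx := by rw [hu]; exact Real.sq_sqrt hL.le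
  have hs0 : 0 < u := by rw [hu]; exact Real.sqrt_pos.2 hL
  rcases le_or_gt 2 (d * u) with hv | hv
  · -- large x
    have hu200 : 200 ≤ u := by
      have : d * u ≤ 1 / 100 * u := by gcongr
      linarith
    have hL1 : 1 ≤ Lx := by nlinarith
    have hll0 : 0 ≤ Real.log Lx := Real.log_nonneg hL1
    have hll : Real.log Lx ≤ 2 * u := by
      rw [← hsq, Real.log_pow]
      have := Real.log_le_self hs0.le
      push_cast
      linarith
    obtain ⟨J, hJ⟩ : ∃ J : ℕ, J = ⌊((A + 1 : ℕ) : ℝ) * Real.log Lx / 2⌋₊ := ⟨_, rfl⟩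
    have hJ1 : (J : ℝ) ≤ ((A + 1 : ℕ) : ℝ) * Real.log Lx / 2 := by
      rw [hJ]
      exact Nat.floor_le (by positivity)
    have hJ6 : (6 : ℝ) ^ J ≤ Lx ^ (A + 1) := by
      have h7 : (6 : ℝ) ≤ Real.exp 2 := by
        have h8 : Real.exp 2 = Real.exp 1 * Real.exp 1 := by
          rw [← Real.exp_add]
          norm_num
        have h9 := Real.exp_one_gt_d9
        nlinarith
      calc (6 : ℝ) ^ J ≤ Real.exp 2 ^ J := pow_le_pow_left₀ (by norm_num) h7 _
        _ = Real.exp (J * 2) := by rw [← Real.exp_nat_mul]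
        _ ≤ Real.exp (((A + 1 : ℕ) : ℝ) * Real.log Lx) := by
          apply Real.exp_le_exp.2
          linarith
        _ = Lx ^ (A + 1) := by rw [Real.exp_nat_mul, Real.exp_log hL]
    have hvx : 34 * M * (M + 1) * (d * u) ^ 2 ≤ Real.log x / 8 := by
      rw [mul_pow, hsq, ← hLx]
      have h5 : 34 * (M : ℝ) * (M + 1) * (d ^ 2 * Lx) = 34 * (d * (M * (M + 1))) * d * Lx := by ring
      rw [h5]
      have h6 : 34 * (d * (M * (M + 1))) * d ≤ 1 / 8 := by
        have h7 : 34 * (d * (M * (M + 1))) * d ≤ 34 * (1 / 8) * (1 / 100) := by gcongr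
        linarith
      nlinarith
    have hJv : (J : ℝ) * ((M + 1) * (d * u)) ≤ Real.log x / 8 := by
      rw [← hLx]
      have h5 : (J : ℝ) ≤ M * u := by
        calc (J : ℝ) ≤ ((A + 1 : ℕ) : ℝ) * Real.log Lx / 2 := hJ1
          _ ≤ ((A + 1 : ℕ) : ℝ) * (2 * u) / 2 := by gcongr
          _ = ((A + 1 : ℕ) : ℝ) * u := by ring
          _ ≤ M * u := by gcongr
      calc (J : ℝ) * ((M + 1) * (d * u)) ≤ (M * u) * ((M + 1) * (d * u)) := by gcongr
        _ = (d * (M * (M + 1))) * u ^ 2 := by ring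
        _ = (d * (M * (M + 1))) * Lx := by rw [hsq]
        _ ≤ (1 / 8) * Lx := by gcongr
        _ = Lx / 8 := by ring
    -- the level
    obtain ⟨z, hz⟩ : ∃ z : ℕ, z = ⌊Real.exp (d * u)⌋₊ := ⟨_, rfl⟩
    have hev : d * u + 1 ≤ Real.exp (d * u) := Real.add_one_le_exp _
    have hz3 : 3 ≤ z := by rw [hz]; exact Nat.le_floor (by push_cast; linarith)
    have hzle : (z : ℝ) ≤ Real.exp (d * u) := by rw [hz]; exact Nat.floor_le (Real.exp_pos _).le
    have hzge : Real.exp (d * u) < z + 1 := by rw [hz]; exact Nat.lt_floor_add_one _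
    have hz0 : (0 : ℝ) < z := by exact_mod_cast (show 0 < z by omega)
    have hlz : Real.log z ≤ d * u := by
      rw [Real.log_le_iff_le_exp hz0]
      exact hzle
    have hlz' : d * u / 2 ≤ Real.log z := by
      rw [Real.le_log_iff_exp_le hz0]
      have h3 : Real.exp (d * u) = Real.exp (d * u / 2) * Real.exp (d * u / 2) := by
        rw [← Real.exp_add]
        ring_nf
      have h4 : d * u / 2 + 1 ≤ Real.exp (d * u / 2) := Real.add_one_le_exp _
      nlinarith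
    have hv2 : (1 : ℝ) ≤ d * u / 2 := by linarith
    have hllz : Real.log (d * u / 2) ≤ Real.log (Real.log z) := Real.log_le_log (by linarith) hlz'
    have hzx : z ≤ x := by
      have h3 : (z : ℝ) ≤ x := by
        refine hzle.trans ?_
        have h4 : d * u ≤ Lx := by
          have h5 : d * u ≤ 1 * u := mul_le_mul_of_nonneg_right (by linarith) hs0.le
          nlinarith
        have h5 := Real.exp_le_exp.2 h4
        rwa [hLx, Real.exp_log hx0] at h5
      exact_mod_cast h3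
    have hPF : ∀ q ∈ Pz M z, q.Prime ∧ (∀ r ∈ Fv V (TT s β M) q, r < q) ∧
        ((Fv V (TT s β M) q).card : ℝ) ≤ 1 / M * q := by
      intro q hq
      refine ⟨(mem_Pz.1 hq).1, Fv_lt (mem_Pz.1 hq).1, ?_⟩
      have h3 : ((Fv V (TT s β M) q).card : ℝ) ≤ M := by exact_mod_cast Fv_le hTsub q
      have h4 : (M : ℝ) ^ 2 ≤ q := by exact_mod_cast (mem_Pz.1 hq).2.1.le
      have h5 : (M : ℝ) ≤ 1 / M * q := by
        rw [one_div, ← div_eq_inv_mul, le_div_iff₀ (by linarith)]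
        linarith
      linarith
    have hE1 : ∑ q ∈ Pz M z, ((Fv V (TT s β M) q).card : ℝ) / q ≤ M * (1 + d * u) := by
      refine (Ev_le hTsub).trans ?_
      gcongr
    have hS : ∑ q ∈ Pz M z, ((Fv V (TT s β M) q).card : ℝ) ≤ M * Real.exp (d * u) := by
      refine (Sv_le hTsub).trans ?_
      gcongr
    have hE2 : 4 * ((2 * (A + 1) : ℕ) : ℝ) * Real.log (d * u / 2) - K' ≤
        ∑ q ∈ Pz M z, ((Fv V (TT s β M) q).card : ℝ) / q := by
      have h3 := Ev_ge (V := V) hM2 hTsub c (fun b hb => hc b hb) hz3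
      rw [← hK', hcard] at h3
      have h4 : 4 * ((2 * (A + 1) : ℕ) : ℝ) * Real.log (d * u / 2) ≤
          ((64 * (A + 1) : ℕ) : ℝ) * (Real.log (Real.log z) / 8) := by
        push_cast
        have h5 : (0 : ℝ) ≤ 8 * ((A : ℝ) + 1) := by positivity
        have h6 := mul_le_mul_of_nonneg_left hllz h5
        linarith
      linarith
    have hb := Pool.Agent.BR4.Sv34.boundG h2 (Pz M z) (Fv V (TT s β M)) (a := 2 * (A + 1)) hM2 hv hPF hE1 hE2 hS
      hJv hvx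
    rw [← hK, ← hLx] at hb
    have hsub : (Icc 1 x).filter (fun n => ∀ b ∈ TT s β M, ((HV V b n x).card : ℝ) < Real.log Lx / 128) ⊆
        (Icc 1 x).filter (fun k => ((Pz M z).filter (fun q => k % q ∈ Fv V (TT s β M) q)).card ≤ J) := by
      intro n hn
      rw [mem_filter] at hn ⊢
      refine ⟨hn.1, ?_⟩
      rw [hJ]
      apply Nat.le_floor
      have h5 := few5 (V := V) hzx hn.2
      rw [hcard] at h5
      refine h5.trans (le_of_eq ?_)
      push_cast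
      ring
    have h5 : (((Icc 1 x).filter (fun n => ∀ b ∈ TT s β M,
        ((HV V b n x).card : ℝ) < Real.log Lx / 128)).card : ℝ) ≤
        (((Icc 1 x).filter (fun k => ((Pz M z).filter (fun q => k % q ∈ Fv V (TT s β M) q)).card ≤ J)).card : ℝ) := by
      exact_mod_cast card_le_card hsub
    have e5 := powers5 (A := A) (K := K) hd0 hs0 hL1 hsq hK0 hJ6
    rw [← hB1] at e5
    obtain ⟨-, e4⟩ := powers92 (A := A) (M := M) (t₁ := 0) (K := K) hM1 hd0 hs0 hL hsq hK0 hx0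
      (by push_cast; positivity) hll0 (by rw [hLx, Real.exp_log hx0])
    have e7 : x * (B1 / Lx ^ A) + 3 * (x * (A.factorial * 2 ^ A / Lx ^ A)) = (B1 + B3) * x / Lx ^ A := by
      rw [hB3]
      field_simp
    have e9 : (B1 + B3) * x / Lx ^ A ≤ (B1 + B3 + B4) * x / Lx ^ A :=
      div_le_div_of_nonneg_right (mul_le_mul_of_nonneg_right (by linarith) hx0.le) hLA.le
    have e10 : (x : ℝ) * ((6 : ℝ) ^ J * (K * (2 / (d * u)) ^ (2 * (2 * (A + 1))) + Real.exp (-(d * u)))) ≤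
        x * (B1 / Lx ^ A) := mul_le_mul_of_nonneg_left e5 hx0.le
    linarith
  · -- small x
    have h5 : (((Icc 1 x).filter (fun n => ∀ b ∈ TT s β M,
        ((HV V b n x).card : ℝ) < Real.log Lx / 128)).card : ℝ) ≤ x := by
      have h6 : ((Icc 1 x).filter (fun n => ∀ b ∈ TT s β M,
          ((HV V b n x).card : ℝ) < Real.log Lx / 128)).card ≤ x := by
        refine (card_le_card (filter_subset _ _)).trans ?_
        rw [Nat.card_Icc]
        omega
      exact_mod_cast h6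
    refine h5.trans ?_
    rw [le_div_iff₀ hLA]
    have h6 : Lx ^ A ≤ B4 := by
      rw [hB4, ← hsq, ← pow_mul]
      have h7 : u ≤ 2 / d := by
        rw [le_div_iff₀ hd0]
        linarith
      exact pow_le_pow_left₀ hs0.le h7 _
    have h7 : Lx ^ A ≤ B1 + B3 + B4 := by linarith
    calc (x : ℝ) * Lx ^ A ≤ x * (B1 + B3 + B4) := by gcongr
      _ = (B1 + B3 + B4) * x := by ring

end Pool.Agent.BR5.Sv534
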